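import Pool.Agent.H6.OC.NF
import Pool.Agent.H6.OC.J1C
import Pool.Agent.H86.OC.ROKa
import Pool.Agent.H98.OCM.Defs

/-!
Theorem OC in codimension `c`: density of the nonfull rows of the vector `N`, in coordinates that
depend on the sample.
-/

set_option autoImplicit false

namespace Pool.OCM

open Finset Real
open Pool.Agent.H49.Ent Pool.Agent.H32.Dense Pool.STK Pool.KAF Pool.OC

section

variable {Ω β θ S T : Type} [Fintype Ω]

/-! ### Nested sequences of variables -/

/-- Entropy of the windows of a nested sequence. -/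
theorem sum_CH_seq {q : Ω → ℝ} (hq : ∀ ω, 0 ≤ q ω) (W : ℕ → Ω → S)
    (hW : ∀ κ κ', κ ≤ κ' → Det q (W κ) (W κ')) (T : Ω → θ) (a n K : ℕ) :
    ∑ j ∈ range n, CH q (W (a + j)) (fun ω => (W (a + j + K) ω, T ω)) ≤
      K * CH q (W a) (fun ω => (W (a + n + K) ω, T ω)) := by
  have key : ∀ κ κ' : ℕ, κ ≤ κ' → CH q (W κ) (fun ω => (W κ' ω, T ω)) =
      CH q (W κ) T - CH q (W κ') T := by
    intro κ κ' h
    have h1 := CH_chain hq (W κ) (W κ') T
    have h2 : CH q (fun ω => (W κ ω, W κ' ω)) T = CH q (W κ) T := by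
      refine CH_congr hq ?_ ?_ (fun _ _ _ _ h => h) (fun _ _ _ _ h => h)
      · intro ω ω' _ _ hw
        simp only [Prod.mk.injEq] at hw
        exact hw.1.1
      · intro ω ω' h1 h2 hw
        simp only [Prod.mk.injEq] at hw ⊢
        exact ⟨hw.1, hW κ κ' h ω ω' h1 h2 hw.1⟩
    linarith only [h1, h2]
  have hmono : Monotone (fun κ => - CH q (W κ) T) := by
    intro κ κ' h
    have h1 := key κ κ' h
    have h2 := CH_nonneg hq (W κ) (fun ω => (W κ' ω, T ω))
    simp only
    linarith only [h1, h2]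
  have h3 := tel_mono hmono a n K
  rw [Finset.sum_congr rfl fun j _ => key (a + j) (a + j + K) (by omega), key a (a + n + K) (by omega)]
  refine le_trans (le_of_eq ?_) (h3.trans (le_of_eq ?_))
  · refine Finset.sum_congr rfl fun j _ => ?_
    ring
  · ring

/-- Information of a label on the windows of a nested sequence. -/
theorem sum_MI_seq {p : Ω → ℝ} (hp : ∀ ω, 0 ≤ p ω) (W : ℕ → Ω → S)
    (hW : ∀ κ κ', κ ≤ κ' → Det p (W κ) (W κ')) (T : Ω → θ) (b : Ω → β)
    (a n K : ℕ) :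
    ∑ j ∈ range n, Pool.KVA.MI p (W (a + j)) b (fun ω => (W (a + j + K) ω, T ω)) ≤
      K * CH p b T := by
  have key : ∀ κ κ' : ℕ, κ ≤ κ' → Pool.KVA.MI p (W κ) b (fun ω => (W κ' ω, T ω)) =
      CH p b (fun ω => (W κ' ω, T ω)) - CH p b (fun ω => (W κ ω, T ω)) := by
    intro κ κ' h
    unfold Pool.KVA.MI
    have h1 := CH_chain hp b (W κ) (fun ω => (W κ' ω, T ω))
    have h2 : CH p (fun ω => (W κ ω, b ω)) (fun ω => (W κ' ω, T ω)) =
        CH p (fun ω => (b ω, W κ ω)) (fun ω => (W κ' ω, T ω)) := by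
      refine CH_congr hp ?_ ?_ (fun _ _ _ _ h => h) (fun _ _ _ _ h => h) <;>
      · intro ω ω' _ _ hw
        simp only [Prod.mk.injEq] at hw ⊢
        tauto
    have h3 : CH p b (fun ω => (W κ ω, (W κ' ω, T ω))) = CH p b (fun ω => (W κ ω, T ω)) := by
      refine CH_congr hp ?_ ?_ ?_ ?_
      · intro ω ω' _ _ hw
        simp only [Prod.mk.injEq] at hw
        exact hw.1
      · intro ω ω' _ _ hw
        simp only [Prod.mk.injEq] at hw
        exact hw.1
      · intro ω ω' _ _ hw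
        simp only [Prod.mk.injEq] at hw ⊢
        exact ⟨hw.1, hw.2.2⟩
      · intro ω ω' h1 h2 hw
        simp only [Prod.mk.injEq] at hw ⊢
        exact ⟨hw.1, hW κ κ' h ω ω' h1 h2 hw.1, hw.2⟩
    linarith only [h1, h2, h3]
  have hmono : Monotone (fun κ => CH p b (fun ω => (W κ ω, T ω))) := by
    intro κ κ' h
    refine CH_mono_cond hp ?_
    intro ω ω' h1 h2 hw
    simp only [Prod.mk.injEq] at hw ⊢
    exact ⟨hW κ κ' h ω ω' h1 h2 hw.1, hw.2⟩
  have h3 := tel_mono hmono a n K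
  rw [Finset.sum_congr rfl fun j _ => key (a + j) (a + j + K) (by omega)]
  refine h3.trans (mul_le_mul_of_nonneg_left ?_ (Nat.cast_nonneg K))
  have h4 := CH_nonneg hp b (fun ω => (W a ω, T ω))
  have h5 : CH p b (fun ω => (W (a + n + K) ω, T ω)) ≤ CH p b T := by
    refine CH_mono_cond hp ?_
    intro ω ω' _ _ hw
    simp only [Prod.mk.injEq] at hw
    exact hw.2
  linarith only [h4, h5]

/-- The entropy of the window of length `K` above the level `κ` at the context of the sample. -/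
noncomputable def rowG (p : Ω → ℝ) (W : ℕ → Ω → S) (κ K : ℕ) (T : Ω → θ) (ω : Ω) : ℝ :=
  H (cond p (fun v => (W (κ + K) v, T v)) (W (κ + K) ω, T ω)) (W κ)

theorem rowG_le {p : Ω → ℝ} (hp : IsLaw p) (W : ℕ → Ω → S) (κ K : ℕ) (T : Ω → θ) {L : ℝ}
    (F : S → Finset S) (hF : ∀ κ ω, 0 < p ω → W κ ω ∈ F (W (κ + K) ω))
    (hL : ∀ s, Real.log (F s).card ≤ L) {ω : Ω}
    (hω : 0 < p ω) : rowG p W κ K T ω ≤ L := by
  have hq := isLaw_cond hp (fun v => (W (κ + K) v, T v)) hω
  refine le_trans ?_ (hL (W (κ + K) ω))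
  unfold rowG
  refine H_le_log_card hq.nonneg hq.sum_one _ _ fun v hv => ?_
  obtain ⟨h1, h2⟩ := (cond_pos_iff hp.nonneg _ _ v).1 hv
  have h3 : W (κ + K) v = W (κ + K) ω := (Prod.ext_iff.mp h2).1
  rw [← h3]
  exact hF κ v h1

/-- The main inequality. -/
theorem main_seq {p : Ω → ℝ} (hp : IsLaw p) (W : ℕ → Ω → S)
    (hW : ∀ κ κ', κ ≤ κ' → Det p (W κ) (W κ')) (T : Ω → θ) (E : Set Ω)
    (hE : 0 < Pr p E) (a n K : ℕ) (F : S → Finset S)
    (hF : ∀ κ ω, 0 < p ω → W κ ω ∈ F (W (κ + K) ω)) (nc : ℕ) (hn : ∀ s, (F s).card ≤ nc)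
    (L : ℝ) (hL : Real.log nc = L) (hL0 : 0 ≤ L)
    (thr A δ e : ℝ) (hδ : 0 < δ) (he : 0 < e) (hthr : 0 ≤ thr)
    (hA : CH (cond p (· ∈ E) True) (W a) (fun ω => (W (a + n + K) ω, T ω)) ≤ A) :
    Pr p E * (n * L) ≤
      Pr p E * (K * A + n * (thr + Real.log 2 + δ / 2 * L)) +
      L * (∑ j ∈ range n,
        Pr p (E ∩ {ω | rowG p W (a + j) K T ω ≤ L - thr}) +
        (K * Real.log 2 / e + n * (2 * Real.sqrt e / δ))) := by
  classical
  have hl2 : 0 < Real.log 2 := Real.log_pos (by norm_num)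
  set m : ℕ → Ω → S × θ := fun κ ω => (W (κ + K) ω, T ω) with hm
  set b : Ω → Prop := fun u => (u ∈ E) with hb
  set G : ℕ → Ω → ℝ := fun κ ω => H (cond p (fun u => (b u, m κ u)) (b ω, m κ ω)) (W κ) with hG
  set M : ℕ → ℝ := fun κ => Pool.KVA.MI p (W κ) b (m κ) with hM
  set Bd : ℕ → Set Ω := fun κ => {ω | G κ ω + Real.log 2 + δ / 2 * Real.log nc <
    H (cond p (m κ) (m κ ω)) (W κ)} with hBd
  set B : ℕ → Set Ω := fun κ => {ω | rowG p W κ K T ω ≤ L - thr} with hB
  have hrow : ∀ κ ω, rowG p W κ K T ω = H (cond p (m κ) (m κ ω)) (W κ) := fun _ _ => rfl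
  have hFL : ∀ ω, 0 < p ω → 0 < nc := by
    intro ω hω
    exact lt_of_lt_of_le (Finset.card_pos.2 ⟨_, hF 0 ω hω⟩) (hn _)
  have hG0 : ∀ κ ω, 0 < p ω → 0 ≤ G κ ω := by
    intro κ ω hω
    have hq := isLaw_cond hp (fun u => (b u, m κ u)) hω
    exact H_nonneg hq.nonneg hq.sum_one _
  have hrowle : ∀ κ ω, 0 < p ω → rowG p W κ K T ω ≤ L := by
    intro κ ω hω
    have hq := isLaw_cond hp (fun v => (W (κ + K) v, T v)) hω
    have h1 : rowG p W κ K T ω ≤ Real.log (F (W (κ + K) ω)).card := by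
      unfold rowG
      refine H_le_log_card hq.nonneg hq.sum_one _ _ fun v hv => ?_
      obtain ⟨h1, h2⟩ := (cond_pos_iff hp.nonneg _ _ v).1 hv
      have h3 : W (κ + K) v = W (κ + K) ω := (Prod.ext_iff.mp h2).1
      rw [← h3]
      exact hF κ v h1
    refine h1.trans ?_
    rw [← hL]
    refine Real.log_le_log ?_ (by exact_mod_cast hn _)
    exact_mod_cast Finset.card_pos.2 ⟨_, hF κ ω hω⟩
  -- the bad sets
  have hbad : ∀ κ, Pr p (Bd κ) ≤ M κ / e + 2 * Real.sqrt e / δ := by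
    intro κ
    exact cmp_rev hp (W κ) b (m κ) (e := e) (δ := δ) (a := M κ / e) hδ he
      (by rw [mul_div_cancel₀ _ he.ne']) (fun t => F t.1) nc
      (fun ω hω => hF κ ω hω) (fun t => hn t.1)
  -- one level
  have hone : ∀ κ, Pr p E * L ≤
      Pr p E * CH (cond p (· ∈ E) True) (W κ) (m κ) +
      Pr p E * (thr + Real.log 2 + δ / 2 * L) +
      L * (Pr p (E ∩ B κ) + (M κ / e + 2 * Real.sqrt e / δ)) := by
    intro κ
    have h1 : ∀ ω, (if ω ∈ E then p ω else 0) * L ≤
        (if ω ∈ E then p ω else 0) * G κ ω +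
        (if ω ∈ E then p ω else 0) * (thr + Real.log 2 + δ / 2 * L) +
        L * ((if ω ∈ E ∩ B κ then p ω else 0) + (if ω ∈ Bd κ then p ω else 0)) := by
      intro ω
      have hω0 := hp.nonneg ω
      have h0 : 0 ≤ (if ω ∈ E ∩ B κ then p ω else 0) := by split_ifs <;> simp [hω0]
      have h0' : 0 ≤ (if ω ∈ Bd κ then p ω else 0) := by split_ifs <;> simp [hω0]
      by_cases hE' : ω ∈ E
      · rw [if_pos hE']
        rcases hω0.eq_or_lt with h2 | h2
        · rw [← h2]
          simp only [ite_self, zero_mul, add_zero, mul_zero, le_refl]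
        · have h3 := hrowle κ ω h2
          have hGω := hG0 κ ω h2
          by_cases hBω : ω ∈ B κ
          · rw [if_pos (show ω ∈ E ∩ B κ from ⟨hE', hBω⟩)]
            have h4 : 0 ≤ p ω * G κ ω := mul_nonneg hω0 hGω
            have h5 : 0 ≤ p ω * (thr + Real.log 2 + δ / 2 * L) := by positivity
            have h6 : 0 ≤ L * (if ω ∈ Bd κ then p ω else 0) := mul_nonneg hL0 h0'
            nlinarith only [h4, h5, h6]
          · by_cases hBdω : ω ∈ Bd κ
            · rw [if_pos hBdω]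
              have h4 : 0 ≤ p ω * G κ ω := mul_nonneg hω0 hGω
              have h5 : 0 ≤ p ω * (thr + Real.log 2 + δ / 2 * L) := by positivity
              have h6 : 0 ≤ L * (if ω ∈ E ∩ B κ then p ω else 0) := mul_nonneg hL0 h0
              nlinarith only [h4, h5, h6]
            · have h4 : L - thr < rowG p W κ K T ω := not_le.1 hBω
              have h5 : rowG p W κ K T ω ≤ G κ ω + Real.log 2 + δ / 2 * L := by
                rw [hrow, ← hL]
                exact not_lt.1 hBdω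
              have h6 : L ≤ G κ ω + (thr + Real.log 2 + δ / 2 * L) := by
                linarith only [h4, h5]
              have h7 := mul_le_mul_of_nonneg_left h6 hω0
              have h8 : 0 ≤ L * ((if ω ∈ E ∩ B κ then p ω else 0) +
                (if ω ∈ Bd κ then p ω else 0)) := mul_nonneg hL0 (add_nonneg h0 h0')
              linarith only [h7, h8]
      · rw [if_neg hE', zero_mul, zero_mul, zero_mul]
        have h8 : 0 ≤ L * ((if ω ∈ E ∩ B κ then p ω else 0) +
                (if ω ∈ Bd κ then p ω else 0)) := mul_nonneg hL0 (add_nonneg h0 h0')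
        linarith only [h8]
    have h2 := Finset.sum_le_sum fun ω (_ : ω ∈ univ) => h1 ω
    rw [Finset.sum_add_distrib, Finset.sum_add_distrib, ← Finset.sum_mul, ← Finset.sum_mul,
      ← Finset.mul_sum, Finset.sum_add_distrib, sum_indicator, sum_indicator, sum_indicator] at h2
    have h3 : ∑ ω, (if ω ∈ E then p ω else 0) * G κ ω =
        Pr p E * CH (cond p (· ∈ E) True) (W κ) (m κ) := sum_event hp E (W κ) (m κ) hE
    rw [h3] at h2
    have h4 := mul_le_mul_of_nonneg_left (hbad κ) hL0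
    linarith only [h2, h4]
  -- the sum over the levels
  have hsum := Finset.sum_le_sum fun j (_ : j ∈ range n) => hone (a + j)
  have s1 : ∑ _j ∈ range n, Pr p E * L = Pr p E * (n * L) := by
    rw [sum_const, card_range, nsmul_eq_mul]
    ring
  have s2 : ∑ j ∈ range n, (Pr p E * CH (cond p (· ∈ E) True) (W (a + j)) (m (a + j)) +
      Pr p E * (thr + Real.log 2 + δ / 2 * L) +
      L * (Pr p (E ∩ B (a + j)) + (M (a + j) / e + 2 * Real.sqrt e / δ))) =
      Pr p E * ∑ j ∈ range n, CH (cond p (· ∈ E) True) (W (a + j)) (m (a + j)) +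
      Pr p E * (n * (thr + Real.log 2 + δ / 2 * L)) +
      L * (∑ j ∈ range n, Pr p (E ∩ B (a + j)) +
        ((∑ j ∈ range n, M (a + j)) / e + n * (2 * Real.sqrt e / δ))) := by
    simp only [Finset.sum_add_distrib, ← Finset.mul_sum, sum_const, card_range, nsmul_eq_mul,
      ← Finset.sum_div]
    ring
  rw [s1, s2] at hsum
  have hqn : ∀ ω, 0 ≤ cond p (· ∈ E) True ω := fun v => cond_nonneg hp.nonneg _ _ v
  have hWq : ∀ κ κ', κ ≤ κ' → Det (cond p (· ∈ E) True) (W κ) (W κ') := by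
    intro κ κ' h ω ω' h1 h2 h3
    exact hW κ κ' h ω ω' ((cond_pos_iff hp.nonneg _ _ ω).1 h1).1
      ((cond_pos_iff hp.nonneg _ _ ω').1 h2).1 h3
  have h1 : ∑ j ∈ range n, CH (cond p (· ∈ E) True) (W (a + j)) (m (a + j)) ≤ K * A :=
    (sum_CH_seq hqn W hWq T a n K).trans (mul_le_mul_of_nonneg_left hA (Nat.cast_nonneg K))
  have h2 : ∑ j ∈ range n, M (a + j) ≤ K * Real.log 2 := by
    have h3 := sum_MI_seq hp.nonneg W hW T b a n K
    have h4 := CH_event_le hp E T
    exact h3.trans (mul_le_mul_of_nonneg_left h4 (Nat.cast_nonneg K))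
  have h3 := mul_le_mul_of_nonneg_left h1 hE.le
  have h4 : (∑ j ∈ range n, M (a + j)) / e ≤ K * Real.log 2 / e :=
    div_le_div_of_nonneg_right h2 he.le
  have h5 := mul_le_mul_of_nonneg_left h4 hL0
  simp only [hB] at hsum
  linarith only [h3, h5, hsum]

/-- The proportion of the low windows in a family. -/
noncomputable def wtF {J : Type} [Fintype J] (p : Ω → ℝ) (W : J → ℕ → Ω → S) (T : Ω → θ)
    (L : ℝ) (κ K : ℕ) (ω : Ω) : ℝ :=
  open Classical in
  (∑ u : J, if rowG p (W u) κ K T ω ≤ L then (1 : ℝ) else 0) / Fintype.card J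

theorem wtF_nonneg {J : Type} [Fintype J] (p : Ω → ℝ) (W : J → ℕ → Ω → S) (T : Ω → θ)
    (L : ℝ) (κ K : ℕ) (ω : Ω) : 0 ≤ wtF p W T L κ K ω := by
  classical
  unfold wtF
  refine div_nonneg (Finset.sum_nonneg fun u _ => ?_) (Nat.cast_nonneg _)
  split_ifs <;> norm_num

theorem wtF_le_one {J : Type} [Fintype J] (p : Ω → ℝ) (W : J → ℕ → Ω → S) (T : Ω → θ)
    (L : ℝ) (κ K : ℕ) (ω : Ω) : wtF p W T L κ K ω ≤ 1 := by
  classical
  unfold wtF
  refine div_le_one_of_le₀ ?_ (Nat.cast_nonneg _)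
  calc _ ≤ ∑ _u : J, (1 : ℝ) := Finset.sum_le_sum fun u _ => by split_ifs <;> norm_num
    _ = Fintype.card J := by rw [sum_const, nsmul_eq_mul, mul_one, Finset.card_univ]

/-- **Density of the low windows of a family.** -/
theorem nf_fam (γ π₁ thr l : ℝ) (hγ : 0 < γ) (hπ : 0 < π₁) (hthr : 0 ≤ thr) (hl : 0 < l) (K : ℕ)
    (hK : 8 * (thr + Real.log 2) ≤ γ * (K * l)) :
    ∃ h₀ : ℕ, K ≤ h₀ ∧ ∀ h : ℕ, h₀ ≤ h → ∀ (Ω θ S J : Type) [Fintype Ω] [Fintype J] [Nonempty J]
      (p : Ω → ℝ) (W : J → ℕ → Ω → S) (T : Ω → θ) (F : S → Finset S) (nc a : ℕ), IsLaw p →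
      (∀ u κ κ', κ ≤ κ' → Det p (W u κ) (W u κ')) → (∀ s, (F s).card ≤ nc) →
      Real.log nc = K * l → (∀ u κ ω, 0 < p ω → W u κ ω ∈ F (W u (κ + K) ω)) →
      (∀ E : Set Ω, π₁ ≤ Pr p E → ∀ u,
        CH (cond p (· ∈ E) True) (W u a) (fun ω => (W u (a + h) ω, T ω)) ≤ (1 - γ) * (h * l)) →
      Pr p {ω | ∑ j ∈ range (h - K), wtF p W T (K * l - thr) (a + j) K ω < γ / 4 * h} < π₁ := by
  classical
  have hl2 : 0 < Real.log 2 := Real.log_pos (by norm_num)
  have hKpos : (0 : ℝ) < K * l := by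
    by_contra hcon
    have : γ * (K * l) ≤ 0 := mul_nonpos_of_nonneg_of_nonpos hγ.le (not_lt.1 hcon)
    linarith only [hthr, hK, hl2, this]
  have hK1 : (0 : ℝ) < K := by
    rcases (Nat.cast_nonneg (α := ℝ) K).eq_or_lt with h | h
    · rw [← h, zero_mul] at hKpos
      exact absurd hKpos (lt_irrefl _)
    · exact h
  set e : ℝ := (π₁ * γ ^ 2 / 64) ^ 2 with he
  have he0 : 0 < e := by positivity
  obtain ⟨h₁, hh₁⟩ := exists_nat_ge (K * 16 / γ + 16 * (K * Real.log 2 / e) / (π₁ * γ))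
  refine ⟨max h₁ (K + 1), (Nat.le_succ K).trans (le_max_right _ _), ?_⟩
  intro h hh Ω θ S J _ _ _ p W T F nc a hp hW hFc hnc hF hH5
  by_contra hcon
  rw [not_lt] at hcon
  set E : Set Ω := {ω | ∑ j ∈ range (h - K), wtF p W T (K * l - thr) (a + j) K ω < γ / 4 * h}
    with hE
  set P : ℝ := Pr p E with hP
  have hP0 : 0 < P := lt_of_lt_of_le hπ hcon
  have hKh : K ≤ h := ((Nat.le_succ K).trans (le_max_right h₁ _)).trans hh
  have hKh' : K + 1 ≤ h := (le_max_right h₁ _).trans hh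
  have hn : h - K + K = h := Nat.sub_add_cancel hKh
  have hh₁' : K * 16 / γ + 16 * (K * Real.log 2 / e) / (π₁ * γ) ≤ (h : ℝ) :=
    hh₁.trans (by exact_mod_cast (le_max_left h₁ _).trans hh)
  have hhpos : (0 : ℝ) < h := by
    have : 0 < h := by omega
    exact_mod_cast this
  -- one offset
  have hone : ∀ u, 3 / 8 * γ * P * h ≤ ∑ j ∈ range (h - K),
      Pr p (E ∩ {ω | rowG p (W u) (a + j) K T ω ≤ K * l - thr}) := by
    intro u
    have hA : CH (cond p (· ∈ E) True) (W u a)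
        (fun ω => (W u (a + (h - K) + K) ω, T ω)) ≤ (1 - γ) * (h * l) := by
      have h3 : a + (h - K) + K = a + h := by omega
      rw [h3]
      exact hH5 E hcon u
    have h1 := main_seq hp (W u) (hW u) T E hP0 a (h - K) K F (hF u) nc hFc (K * l) hnc hKpos.le
      thr _ (γ / 2) e (by positivity) he0 hthr hA
    set Sg : ℝ := ∑ j ∈ range (h - K),
      Pr p (E ∩ {ω | rowG p (W u) (a + j) K T ω ≤ K * l - thr}) with hSg
    have hsq : Real.sqrt e = π₁ * γ ^ 2 / 64 := by
      rw [he, Real.sqrt_sq (by positivity)]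
    have hse : 2 * Real.sqrt e / (γ / 2) = π₁ * γ / 16 := by
      rw [hsq]
      field_simp
      ring
    rw [hse] at h1
    have hcast : ((h - K : ℕ) : ℝ) = (h : ℝ) - K := by
      rw [Nat.cast_sub hKh]
    rw [hcast] at h1
    have t1 : K * 16 / γ ≤ (h : ℝ) := by
      have : 0 ≤ 16 * (K * Real.log 2 / e) / (π₁ * γ) := by positivity
      linarith only [hh₁', this]
    have t2 : 16 * (K * Real.log 2 / e) / (π₁ * γ) ≤ (h : ℝ) := by
      have : 0 ≤ (K : ℝ) * 16 / γ := by positivity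
      linarith only [hh₁', this]
    have t1' : (K : ℝ) ≤ γ * h / 16 := by
      rw [div_le_iff₀ hγ] at t1
      linarith only [t1]
    have t2' : K * Real.log 2 / e ≤ π₁ * γ * h / 16 := by
      rw [div_le_iff₀ (by positivity)] at t2
      linarith only [t2]
    have hnn : (0 : ℝ) ≤ (h : ℝ) - K := by
      have : (K : ℝ) ≤ h := by exact_mod_cast hKh
      linarith only [hcast]
    have hπP : π₁ ≤ P := hcon
    have s1 : P * (((h : ℝ) - K) * (K * l)) ≤
        P * (K * ((1 - γ) * (h * l))) +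
        P * (((h : ℝ) - K) * (thr + Real.log 2)) +
        P * (((h : ℝ) - K) * (γ / 4 * (K * l))) +
        K * l * (Sg + (K * Real.log 2 / e + ((h : ℝ) - K) * (π₁ * γ / 16))) := by
      refine h1.trans (le_of_eq ?_)
      ring
    have s2 : P * (((h : ℝ) - K) * (thr + Real.log 2)) ≤ K * l * (P * (γ / 8 * h)) := by
      have : ((h : ℝ) - K) * (thr + Real.log 2) ≤ h * (γ * (K * l) / 8) := by
        have e1 : thr + Real.log 2 ≤ γ * (K * l) / 8 := by linarith only [hK]
        have e2 : (h : ℝ) - K ≤ h := by linarith only [hK1]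
        exact mul_le_mul e2 e1 (by positivity) hhpos.le
      calc _ ≤ P * (h * (γ * (K * l) / 8)) := mul_le_mul_of_nonneg_left this hP0.le
        _ = _ := by ring
    have s3 : P * (((h : ℝ) - K) * (γ / 4 * (K * l))) ≤ K * l * (P * (γ / 4 * h)) := by
      have : ((h : ℝ) - K) * (γ / 4 * (K * l)) ≤ h * (γ / 4 * (K * l)) :=
        mul_le_mul_of_nonneg_right (by linarith only [hK1]) (by positivity)
      calc _ ≤ P * (h * (γ / 4 * (K * l))) := mul_le_mul_of_nonneg_left this hP0.le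
        _ = _ := by ring
    have s4 : K * Real.log 2 / e + ((h : ℝ) - K) * (π₁ * γ / 16) ≤ P * (γ / 8 * h) := by
      have e1 : ((h : ℝ) - K) * (π₁ * γ / 16) ≤ h * (π₁ * γ / 16) :=
        mul_le_mul_of_nonneg_right (by linarith only [hK1]) (by positivity)
      have e2 : π₁ * (γ / 8 * h) ≤ P * (γ / 8 * h) := mul_le_mul_of_nonneg_right hπP (by positivity)
      have e3 : π₁ * γ * h / 16 + h * (π₁ * γ / 16) = π₁ * (γ / 8 * h) := by ring
      linarith only [t2', e1, e2]
    have s5 : K * l * (P * ((h : ℝ) - K)) ≤ K * l *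
        (P * ((1 - γ) * h) + P * (γ / 8 * h) + P * (γ / 4 * h) + Sg + P * (γ / 8 * h)) := by
      have e1 := mul_le_mul_of_nonneg_left s4 hKpos.le
      calc K * l * (P * ((h : ℝ) - K)) = P * (((h : ℝ) - K) * (K * l)) := by ring
        _ ≤ _ := s1
        _ ≤ P * (K * ((1 - γ) * (h * l))) +
            K * l * (P * (γ / 8 * h)) + K * l * (P * (γ / 4 * h)) +
            (K * l * Sg + K * l * (P * (γ / 8 * h))) := by
          have e2 : K * l * (Sg + (K * Real.log 2 / e + ((h : ℝ) - K) * (π₁ * γ / 16))) =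
            K * l * Sg + K * l * (K * Real.log 2 / e + ((h : ℝ) - K) * (π₁ * γ / 16)) := by ring
          rw [e2]
          linarith only [s2, s3, e1]
        _ = _ := by ring
    have s6 := le_of_mul_le_mul_left s5 hKpos
    have s7 := mul_le_mul_of_nonneg_left t1' hP0.le
    nlinarith only [s6, s7, hπ, hcon]
  -- the average over the offsets
  have hcard : (0 : ℝ) < Fintype.card J := by exact_mod_cast Fintype.card_pos
  have h2 : 3 / 8 * γ * P * h ≤
      ∑ ω, (if ω ∈ E then p ω else 0) *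
        ∑ j ∈ range (h - K), wtF p W T (K * l - thr) (a + j) K ω := by
    have h3 := Finset.sum_le_sum fun u (_ : u ∈ (univ : Finset J)) => hone u
    rw [sum_const, nsmul_eq_mul, Finset.card_univ] at h3
    have h4 : ∑ u : J, ∑ j ∈ range (h - K),
        Pr p (E ∩ {ω | rowG p (W u) (a + j) K T ω ≤ K * l - thr}) =
        Fintype.card J * ∑ ω, (if ω ∈ E then p ω else 0) *
          ∑ j ∈ range (h - K), wtF p W T (K * l - thr) (a + j) K ω := by
      have h5 : ∀ (u : J) (κ : ℕ), Pr p (E ∩ {ω | rowG p (W u) κ K T ω ≤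
          K * l - thr}) = ∑ ω, (if ω ∈ E then p ω else 0) *
            (if rowG p (W u) κ K T ω ≤ K * l - thr then (1 : ℝ) else 0) := by
        intro u κ
        rw [Pool.KAF.Pr_eq]
        refine Finset.sum_congr rfl fun ω _ => ?_
        by_cases c1 : ω ∈ E <;> by_cases c2 : rowG p (W u) κ K T ω ≤
          K * l - thr <;> simp [c1, c2]
      simp only [h5, Finset.mul_sum]
      rw [Finset.sum_comm]
      rw [Finset.sum_congr rfl fun j _ => Finset.sum_comm]
      rw [Finset.sum_comm]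
      refine Finset.sum_congr rfl fun ω _ => ?_
      refine Finset.sum_congr rfl fun j _ => ?_
      unfold wtF
      rw [← Finset.mul_sum]
      field_simp
    rw [h4] at h3
    exact le_of_mul_le_mul_left h3 hcard
  have h6 : ∑ ω, (if ω ∈ E then p ω else 0) *
      ∑ j ∈ range (h - K), wtF p W T (K * l - thr) (a + j) K ω ≤ P * (γ / 4 * h) := by
    calc _ ≤ ∑ ω, (if ω ∈ E then p ω else 0) * (γ / 4 * h) := by
          refine Finset.sum_le_sum fun ω _ => ?_
          by_cases c1 : ω ∈ E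
          · rw [if_pos c1]
            exact mul_le_mul_of_nonneg_left (le_of_lt c1) (hp.nonneg ω)
          · rw [if_neg c1, zero_mul, zero_mul]
      _ = _ := by rw [← Finset.sum_mul, sum_indicator]
  have h7 : 0 < P * γ * h := by positivity
  nlinarith only [h2, h6, h7]

/-! ### Comparison of entropies -/

/-- Comparison of two blocks. -/
theorem CH_block_cmp {U V : Type} {q : Ω → ℝ} (hq : ∀ ω, 0 ≤ q ω) (X : Ω → S) (X' : Ω → T)
    (Y : Ω → U) (Y' : Ω → V) (Z : Ω → θ) :
    CH q X' (fun ω => (Y' ω, Z ω)) ≤ CH q X (fun ω => (Y ω, Z ω)) +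
      CH q X' (fun ω => (X ω, Z ω)) + CH q Y (fun ω => (Y' ω, Z ω)) := by
  have sw : ∀ {A B C : Type} (f : Ω → A) (g : Ω → B) (z : Ω → C),
      CH q f z ≤ CH q g z + CH q f (fun ω => (g ω, z ω)) := by
    intro A B C f g z
    have e1 := CH_chain hq g f z
    have e2 := CH_chain hq f g z
    have e3 : CH q (fun ω => (g ω, f ω)) z = CH q (fun ω => (f ω, g ω)) z := by
      refine CH_congr hq ?_ ?_ (fun _ _ _ _ h => h) (fun _ _ _ _ h => h) <;>
      · intro ω ω' _ _ hw
        simp only [Prod.mk.injEq] at hw ⊢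
        tauto
    have e4 := CH_nonneg hq g (fun ω => (f ω, z ω))
    linarith only [e1, e2, e3, e4]
  have h1 := sw X' Y (fun ω => (Y' ω, Z ω))
  have h2 : CH q X' (fun ω => (Y ω, (Y' ω, Z ω))) ≤ CH q X' (fun ω => (Y ω, Z ω)) := by
    refine CH_mono_cond hq ?_
    intro ω ω' _ _ hw
    simp only [Prod.mk.injEq] at hw ⊢
    exact ⟨hw.1, hw.2.2⟩
  have h3 := sw X' X (fun ω => (Y ω, Z ω))
  have h4 : CH q X' (fun ω => (X ω, (Y ω, Z ω))) ≤ CH q X' (fun ω => (X ω, Z ω)) := by
    refine CH_mono_cond hq ?_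
    intro ω ω' _ _ hw
    simp only [Prod.mk.injEq] at hw ⊢
    exact ⟨hw.1, hw.2.2⟩
  linarith only [h1, h2, h3, h4]

/-- Conditional entropy as an average over the values of one more variable. -/
theorem CH_avg {U : Type} [DecidableEq U] {p : Ω → ℝ} (hp : ∀ ω, 0 ≤ p ω) (X : Ω → S) (Y : Ω → T)
    (Z : Ω → U) : CH p X (fun ω => (Z ω, Y ω)) =
      ∑ z ∈ univ.image Z, law p Z z * CH (cond p Z z) X Y := by
  classical
  have h1 := CH_eq_sum hp (fun ω => (X ω, Y ω)) Z
  have h2 := CH_eq_sum hp Y Z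
  have h3 : ∑ z ∈ univ.image Z, law p Z z * CH (cond p Z z) X Y =
      CH p (fun ω => (X ω, Y ω)) Z - CH p Y Z := by
    rw [h1, h2, ← Finset.sum_sub_distrib]
    refine Finset.sum_congr rfl fun z _ => ?_
    rw [← mul_sub]
    rfl
  rw [h3]
  have h4 : H p (fun ω => ((X ω, Y ω), Z ω)) = H p (fun ω => (X ω, (Z ω, Y ω))) :=
    H_congr hp (fun ω ω' _ _ h => by simp only [Prod.mk.injEq] at h ⊢; tauto)
      (fun ω ω' _ _ h => by simp only [Prod.mk.injEq] at h ⊢; tauto)
  have h5 : H p (fun ω => (Y ω, Z ω)) = H p (fun ω => (Z ω, Y ω)) :=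
    H_congr hp (fun ω ω' _ _ h => by simp only [Prod.mk.injEq] at h ⊢; tauto)
      (fun ω ω' _ _ h => by simp only [Prod.mk.injEq] at h ⊢; tauto)
  unfold CH
  rw [h4, h5]
  ring

/-- **Layers.** Conditional entropy under a law of bounded density. -/
theorem CH_density {P μ : Ω → ℝ} (hP : IsLaw P) (hμ : IsLaw μ) {C : ℝ} (hC : 0 < C)
    (hd : ∀ ω, μ ω ≤ C * P ω) (X : Ω → S) (Y : Ω → T) {B B₁ π₀ : ℝ} (hB : 0 ≤ B) (hB₁ : 0 ≤ B₁)
    (hπ : 0 ≤ π₀)
    (hmax : ∀ q : Ω → ℝ, IsLaw q → (∀ ω, 0 < q ω → 0 < P ω) → CH q X Y ≤ B₁)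
    (hE : ∀ E : Set Ω, π₀ ≤ Pr P E → CH (cond P (fun ω => ω ∈ E) True) X Y ≤ B) (m : ℕ)
    (hm : 0 < m) :
    CH μ X Y ≤ B + (C / m + C * π₀) * B₁ + Real.log ((m + 1 : ℕ) : ℝ) := by
  classical
  have hm' : (0 : ℝ) < m := by exact_mod_cast hm
  set s : ℝ := C / m with hs
  have hs0 : 0 < s := by positivity
  set F : Ω → ℕ := fun ω => ⌊μ ω / (s * P ω)⌋₊ with hF
  have hFm : ∀ ω, F ω ≤ m := by
    intro ω
    rcases (hP.nonneg ω).eq_or_lt with h0 | h0
    · rw [hF]
      simp only [← h0, mul_zero, div_zero, Nat.floor_zero, Nat.zero_le]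
    · have h1 : μ ω / (s * P ω) ≤ m := by
        rw [div_le_iff₀ (by positivity), hs]
        refine (hd ω).trans (le_of_eq ?_)
        field_simp
      calc F ω ≤ ⌊(m : ℝ)⌋₊ := Nat.floor_mono h1
        _ = m := Nat.floor_natCast m
  have hF1 : ∀ ω, s * F ω * P ω ≤ μ ω := by
    intro ω
    rcases (hP.nonneg ω).eq_or_lt with h0 | h0
    · rw [← h0, mul_zero]
      exact hμ.nonneg ω
    · have h1 : (F ω : ℝ) ≤ μ ω / (s * P ω) :=
        Nat.floor_le (div_nonneg (hμ.nonneg ω) (by positivity))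
      rw [le_div_iff₀ (by positivity)] at h1
      linarith only [h1]
  have hF2 : ∀ ω, μ ω - s * F ω * P ω ≤ s * P ω := by
    intro ω
    rcases (hP.nonneg ω).eq_or_lt with h0 | h0
    · have h1 := hd ω
      rw [← h0, mul_zero] at h1
      rw [← h0]
      simp only [mul_zero, sub_zero]
      exact h1
    · have h1 : μ ω / (s * P ω) < F ω + 1 := Nat.lt_floor_add_one _
      rw [div_lt_iff₀ (by positivity)] at h1
      linarith only [h1]
  set ν : Ω × Fin (m + 1) → ℝ := fun w =>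
    if (w.2 : ℕ) < m then (if (w.2 : ℕ) < F w.1 then s * P w.1 else 0) else
      μ w.1 - s * F w.1 * P w.1 with hν
  have hν0 : ∀ w, 0 ≤ ν w := by
    intro w
    rw [hν]
    simp only
    split_ifs
    · exact mul_nonneg hs0.le (hP.nonneg _)
    · exact le_rfl
    · linarith only [hF1, hF1 w.1]
  -- the marginal law
  have hmarg : ∀ ω, law ν Prod.fst ω = μ ω := by
    intro ω
    have h1 : law ν Prod.fst ω = ∑ i, ν (ω, i) := by
      unfold law
      rw [Fintype.sum_prod_type, Finset.sum_eq_single ω]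
      · refine Finset.sum_congr rfl fun i _ => ?_
        rw [if_pos rfl]
      · intro b _ hb
        refine Finset.sum_eq_zero fun i _ => ?_
        rw [if_neg hb]
      · intro h
        exact absurd (mem_univ ω) h
    rw [h1, Fin.sum_univ_castSucc]
    have h2 : ν (ω, Fin.last m) = μ ω - s * F ω * P ω := by
      rw [hν]
      simp only [Fin.val_last, lt_irrefl, if_false]
    have h3 : ∑ i : Fin m, ν (ω, i.castSucc) = s * F ω * P ω := by
      have h4 : ∀ i : Fin m, ν (ω, i.castSucc) = if (i : ℕ) < F ω then s * P ω else 0 := by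
        intro i
        rw [hν]
        simp only [Fin.val_castSucc, i.isLt, if_true]
      rw [Finset.sum_congr rfl fun i _ => h4 i, ← Finset.sum_filter, sum_const, nsmul_eq_mul]
      have h5 : (univ.filter (fun i : Fin m => (i : ℕ) < F ω)).card = F ω := by
        rw [Fin.card_filter_val_lt]
        exact min_eq_right (hFm ω)
      rw [h5]
      ring
    rw [h2, h3]
    ring
  have hν1 : ∑ w, ν w = 1 := by
    rw [← hμ.sum_one]
    rw [← Finset.sum_congr rfl fun ω _ => hmarg ω]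
    rw [Fintype.sum_prod_type]
    refine Finset.sum_congr rfl fun ω _ => ?_
    unfold law
    rw [Fintype.sum_prod_type, Finset.sum_eq_single ω]
    · refine Finset.sum_congr rfl fun i _ => ?_
      rw [if_pos rfl]
    · intro b _ hb
      refine Finset.sum_eq_zero fun i _ => ?_
      rw [if_neg hb]
    · intro h
      exact absurd (mem_univ ω) h
  have hνL : IsLaw ν := ⟨hν0, hν1⟩
  have hsup : ∀ w, 0 < ν w → 0 < P w.1 := by
    intro w hw
    rcases (hP.nonneg w.1).eq_or_lt with h0 | h0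
    · exfalso
      have h1 := hd w.1
      rw [← h0, mul_zero] at h1
      have h2 : ν w ≤ 0 := by
        rw [hν]
        simp only [← h0, mul_zero, ite_self, sub_zero]
        split_ifs
        · exact le_rfl
        · exact h1
      linarith only [hw, h2]
    · exact h0
  -- the layer as a label
  have e1 : CH μ X Y = CH ν (fun w => X w.1) (fun w => Y w.1) := (RS.CH_push hmarg X Y).symm
  have e2 : CH ν (fun w => X w.1) (fun w => Y w.1) ≤
      CH ν (fun w => X w.1) (fun w => (w.2, Y w.1)) + Real.log ((m + 1 : ℕ) : ℝ) := by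
    have h1 := CH_chain hν0 (fun w : Ω × Fin (m + 1) => w.2) (fun w => X w.1) (fun w => Y w.1)
    have h2 := CH_chain hν0 (fun w : Ω × Fin (m + 1) => X w.1) (fun w => w.2) (fun w => Y w.1)
    have h3 : CH ν (fun w => (w.2, X w.1)) (fun w => Y w.1) =
        CH ν (fun w => (X w.1, w.2)) (fun w => Y w.1) := by
      refine CH_congr hν0 ?_ ?_ (fun _ _ _ _ h => h) (fun _ _ _ _ h => h) <;>
      · intro ω ω' _ _ hw
        simp only [Prod.mk.injEq] at hw ⊢
        tauto
    have h4 := CH_nonneg hν0 (fun w : Ω × Fin (m + 1) => w.2) (fun w => (X w.1, Y w.1))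
    have h5 : CH ν (fun w => w.2) (fun w => Y w.1) ≤ Real.log ((m + 1 : ℕ) : ℝ) := by
      refine nf_ch_card hνL _ _ (m + 1) fun z => ⟨univ, ?_, fun w _ _ => mem_univ _⟩
      rw [Finset.card_univ, Fintype.card_fin]
    linarith only [h1, h2, h3, h4, h5]
  rw [e1]
  refine e2.trans ?_
  rw [CH_avg hν0 (fun w => X w.1) (fun w => Y w.1) (fun w => w.2)]
  -- one layer
  have hlaw : ∀ i : Fin (m + 1), law ν (fun w => w.2) i = ∑ ω, ν (ω, i) := by
    intro i
    unfold law
    rw [Fintype.sum_prod_type]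
    refine Finset.sum_congr rfl fun ω _ => ?_
    rw [Finset.sum_eq_single i]
    · rw [if_pos rfl]
    · intro b _ hb
      rw [if_neg hb]
    · intro h
      exact absurd (mem_univ i) h
  have hone : ∀ i : Fin (m + 1), law ν (fun w => w.2) i *
      CH (cond ν (fun w => w.2) i) (fun w => X w.1) (fun w => Y w.1) ≤
      law ν (fun w => w.2) i * B + (if (i : ℕ) < m then s * π₀ else s) * B₁ := by
    intro i
    have hl0 := law_nonneg hν0 (fun w => w.2) i
    rcases hl0.eq_or_lt with h0 | h0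
    · rw [← h0, zero_mul, zero_mul, zero_add]
      refine mul_nonneg ?_ hB₁
      split_ifs <;> positivity
    · have hq : IsLaw (cond ν (fun w => w.2) i) :=
        ⟨fun v => cond_nonneg hν0 _ _ v, sum_cond ν _ h0.ne'⟩
      -- the push of the conditioned law
      set q : Ω → ℝ := law (cond ν (fun w => w.2) i) Prod.fst with hqdef
      have hq' : IsLaw q := by
        refine ⟨fun ω => law_nonneg hq.nonneg _ _, ?_⟩
        rw [← hq.sum_one, Fintype.sum_prod_type]
        refine Finset.sum_congr rfl fun ω _ => ?_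
        rw [hqdef]
        unfold law
        rw [Fintype.sum_prod_type, Finset.sum_eq_single ω]
        · refine Finset.sum_congr rfl fun i _ => ?_
          rw [if_pos rfl]
        · intro b _ hb
          refine Finset.sum_eq_zero fun i _ => ?_
          rw [if_neg hb]
        · intro h
          exact absurd (mem_univ ω) h
      have hq2 : ∀ ω, q ω = ν (ω, i) / law ν (fun w => w.2) i := by
        intro ω
        rw [hqdef, law_cond]
        congr 1
        unfold law
        rw [Finset.sum_eq_single (ω, i)]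
        · rw [if_pos rfl]
        · intro b _ hb
          rw [if_neg]
          exact hb
        · intro h
          exact absurd (mem_univ _) h
      have e3 : CH (cond ν (fun w => w.2) i) (fun w => X w.1) (fun w => Y w.1) = CH q X Y :=
        RS.CH_push (fun ω => rfl) X Y
      rw [e3]
      have hmx : CH q X Y ≤ B₁ := by
        refine hmax q hq' fun ω hω => ?_
        rw [hq2] at hω
        have : 0 < ν (ω, i) := by
          by_contra hcon
          have h1 : ν (ω, i) = 0 := le_antisymm (not_lt.1 hcon) (hν0 _)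
          rw [h1, zero_div] at hω
          exact lt_irrefl _ hω
        exact hsup _ this
      by_cases hi : (i : ℕ) < m
      · rw [if_pos hi]
        set E : Set Ω := {ω | (i : ℕ) < F ω} with hEdef
        have hlE : law ν (fun w => w.2) i = s * Pr P E := by
          rw [hlaw, Pool.KAF.Pr_eq, Finset.mul_sum]
          refine Finset.sum_congr rfl fun ω _ => ?_
          rw [hν]
          simp only [hi, if_true, mul_ite, mul_zero]
          rfl
        by_cases hP0 : π₀ ≤ Pr P E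
        · have h1 := hE E hP0
          have h2 : q = cond P (fun ω => ω ∈ E) True := by
            funext ω
            rw [hq2, hlE, hν]
            unfold Pool.Agent.H49.Ent.cond
            have hPE : law P (fun ω => ω ∈ E) True = Pr P E := rfl
            rw [hPE]
            simp only [hi, if_true]
            by_cases c1 : (i : ℕ) < F ω
            · rw [if_pos c1, if_pos (by simp [hEdef, c1])]
              rw [hlE] at h0
              have h3 : 0 < Pr P E := by
                by_contra hcon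
                have : s * Pr P E ≤ 0 := mul_nonpos_of_nonneg_of_nonpos hs0.le (not_lt.1 hcon)
                linarith only [h0, this]
              field_simp
            · rw [if_neg c1, if_neg (by simp [hEdef, c1]), zero_div]
          rw [h2]
          have h3 := mul_le_mul_of_nonneg_left h1 hl0
          have h4 : 0 ≤ s * π₀ * B₁ := by positivity
          linarith only [h3, h4]
        · rw [not_le] at hP0
          have h1 := mul_le_mul_of_nonneg_left hmx hl0
          have h2 : law ν (fun w => w.2) i ≤ s * π₀ := by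
            rw [hlE]
            exact mul_le_mul_of_nonneg_left hP0.le hs0.le
          have h3 := mul_le_mul_of_nonneg_right h2 hB₁
          have h4 : 0 ≤ law ν (fun w => w.2) i * B := mul_nonneg hl0 hB
          linarith only [h1, h3, h4]
      · rw [if_neg hi]
        have h1 := mul_le_mul_of_nonneg_left hmx hl0
        have h2 : law ν (fun w => w.2) i ≤ s := by
          rw [hlaw]
          calc ∑ ω, ν (ω, i) ≤ ∑ ω, s * P ω := by
                refine Finset.sum_le_sum fun ω _ => ?_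
                rw [hν]
                simp only [hi, if_false]
                exact hF2 ω
            _ = s := by rw [← Finset.mul_sum, hP.sum_one, mul_one]
        have h3 := mul_le_mul_of_nonneg_right h2 hB₁
        have h4 : 0 ≤ law ν (fun w => w.2) i * B := mul_nonneg hl0 hB
        linarith only [h1, h3, h4]
  have h1 : ∑ z ∈ univ.image (fun w : Ω × Fin (m + 1) => w.2), law ν (fun w => w.2) z *
      CH (cond ν (fun w => w.2) z) (fun w => X w.1) (fun w => Y w.1) ≤
      ∑ i : Fin (m + 1), (law ν (fun w => w.2) i * B +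
        (if (i : ℕ) < m then s * π₀ else s) * B₁) := by
    refine (Finset.sum_le_sum fun i _ => hone i).trans ?_
    refine Finset.sum_le_sum_of_subset_of_nonneg (Finset.subset_univ _) fun i _ _ => ?_
    have h2 := law_nonneg hν0 (fun w => w.2) i
    refine add_nonneg (mul_nonneg h2 hB) (mul_nonneg ?_ hB₁)
    split_ifs <;> positivity
  have h2 : ∑ i : Fin (m + 1), (law ν (fun w => w.2) i * B +
        (if (i : ℕ) < m then s * π₀ else s) * B₁) = B + (m * (s * π₀) + s) * B₁ := by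
    rw [Finset.sum_add_distrib, ← Finset.sum_mul, ← Finset.sum_mul]
    have h3 : ∑ i : Fin (m + 1), law ν (fun w => w.2) i = 1 := by
      rw [Finset.sum_congr rfl fun i _ => hlaw i, ← hν1, Fintype.sum_prod_type, Finset.sum_comm]
    have h4 : ∑ i : Fin (m + 1), (if (i : ℕ) < m then s * π₀ else s) = m * (s * π₀) + s := by
      rw [Fin.sum_univ_castSucc]
      simp only [Fin.val_castSucc, Fin.is_lt, if_true, Fin.val_last, lt_irrefl, if_false, sum_const,
        Finset.card_univ, Fintype.card_fin, nsmul_eq_mul]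
    rw [h3, h4, one_mul]
  have h3 : (m : ℝ) * (s * π₀) = C * π₀ := by
    rw [hs]
    field_simp
  rw [h2, h3] at h1
  have h4 : (C * π₀ + s) * B₁ = (C / m + C * π₀) * B₁ := by
    rw [hs]
    ring
  linarith only [h1]

end

/-! ### Cells of vectors -/

section

variable {Ω θ : Type} [Fintype Ω] {c : ℕ}

omit [Fintype Ω] in
theorem rc_add (N : Ω → Fin c → ℤ) (κ K : ℕ) (ω : Ω) :
    rc N (κ + K) ω = fun i => rc N κ ω i / ((2 ^ K : ℕ) : ℤ) := by
  funext i
  unfold rc
  rw [Int.ediv_ediv_of_nonneg (by positivity)]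
  congr 1
  push_cast
  rw [pow_add]

omit [Fintype Ω] in
theorem det_rc (p : Ω → ℝ) (N : Ω → Fin c → ℤ) {κ κ' : ℕ} (h : κ ≤ κ') :
    Det p (rc N κ) (rc N κ') := by
  intro ω ω' _ _ h1
  obtain ⟨K, rfl⟩ := Nat.exists_eq_add_of_le h
  rw [rc_add, rc_add, h1]

/-- The cells inside a cell. -/
noncomputable def cellV (K : ℕ) (v : Fin c → ℤ) : Finset (Fin c → ℤ) :=
  Fintype.piFinset fun i => cellF K (v i)

theorem cellV_card (K : ℕ) (v : Fin c → ℤ) : (cellV K v).card = (2 ^ K) ^ c := by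
  unfold cellV
  rw [Fintype.card_piFinset]
  simp only [cellF_card, Finset.prod_const, Finset.card_univ, Fintype.card_fin]

theorem log_cellV (K : ℕ) : Real.log (((2 ^ K) ^ c : ℕ) : ℝ) = K * (c * Real.log 2) := by
  push_cast
  rw [Real.log_pow, Real.log_pow]
  ring

omit [Fintype Ω] in
theorem mem_cellV (N : Ω → Fin c → ℤ) (κ K : ℕ) (ω : Ω) :
    rc N κ ω ∈ cellV K (rc N (κ + K) ω) := by
  unfold cellV
  rw [Fintype.mem_piFinset]
  intro i
  exact mem_cellF κ K (N ω i)

/-- The weight is the proportion of the low windows in the family of the shifts. -/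
theorem wtz_eq (p : Ω → ℝ) (N : Ω → Fin c → ℤ) (τ : Ω → θ) (X κ K : ℕ) (D : ℝ) (ω : Ω) :
    wtz p N τ X κ K D ω = wtF p (fun u : Fin c → Fin (2 ^ X) => rc (sh N u)) τ
      (K * (c * Real.log 2) - D) κ K ω := by
  classical
  unfold wtz wtF
  have h1 : ((Fintype.card (Fin c → Fin (2 ^ X)) : ℕ) : ℝ) = (2 : ℝ) ^ (c * X) := by
    rw [Fintype.card_fun, Fintype.card_fin, Fintype.card_fin]
    push_cast
    rw [← pow_mul, mul_comm]
  rw [h1]
  congr 1
  refine Finset.sum_congr rfl fun u _ => ?_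
  unfold low rowHV rowG
  rw [show (c : ℝ) * (K * Real.log 2) = K * (c * Real.log 2) by ring]

theorem wtz_nonneg (p : Ω → ℝ) (N : Ω → Fin c → ℤ) (τ : Ω → θ) (X κ K : ℕ) (D : ℝ) (ω : Ω) :
    0 ≤ wtz p N τ X κ K D ω := by
  rw [wtz_eq]
  exact wtF_nonneg ..

theorem wtz_le_one (p : Ω → ℝ) (N : Ω → Fin c → ℤ) (τ : Ω → θ) (X κ K : ℕ) (D : ℝ) (ω : Ω) :
    wtz p N τ X κ K D ω ≤ 1 := by
  rw [wtz_eq]
  exact wtF_le_one ..

theorem abs_zc_le {M : Fin c → Fin c → ℝ} {A B : ℝ} (hA : 0 ≤ A) (hM : ∀ i j, |M i j| ≤ A)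
    {v : Fin c → ℝ} (hv : ∀ j, |v j| ≤ B) (i : Fin c) : |zc M v i| ≤ c * A * B := by
  unfold zc
  calc |∑ j, M i j * v j| ≤ ∑ j, |M i j * v j| := Finset.abs_sum_le_sum_abs _ _
    _ ≤ ∑ _j : Fin c, A * B := by
        refine Finset.sum_le_sum fun j _ => ?_
        rw [abs_mul]
        exact mul_le_mul (hM i j) (hv j) (abs_nonneg _) hA
    _ = c * A * B := by
        rw [sum_const, Finset.card_univ, Fintype.card_fin, nsmul_eq_mul]
        ring

theorem zc_add (M : Fin c → Fin c → ℝ) (v w : Fin c → ℝ) (i : Fin c) :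
    zc M (fun j => v j + w j) i = zc M v i + zc M w i := by
  unfold zc
  rw [← Finset.sum_add_distrib]
  exact Finset.sum_congr rfl fun j _ => by ring

theorem zc_smul (M : Fin c → Fin c → ℝ) (s : ℝ) (v : Fin c → ℝ) (i : Fin c) :
    zc M (fun j => s * v j) i = s * zc M v i := by
  unfold zc
  rw [Finset.mul_sum]
  exact Finset.sum_congr rfl fun j _ => by ring

/-- An integer quotient in terms of the real quotient. -/
theorem ediv_real (n : ℤ) (κ : ℕ) :
    ((n / ((2 ^ κ : ℕ) : ℤ) : ℤ) : ℝ) ≤ n / 2 ^ κ ∧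
      (n : ℝ) / 2 ^ κ < ((n / ((2 ^ κ : ℕ) : ℤ) : ℤ) : ℝ) + 1 := by
  have h0 : (0 : ℤ) < ((2 ^ κ : ℕ) : ℤ) := by positivity
  have h1 := Int.emod_add_mul_ediv n ((2 ^ κ : ℕ) : ℤ)
  have h2 := Int.emod_nonneg n h0.ne'
  have h3 := Int.emod_lt_of_pos n h0
  have h4 : (2 : ℝ) ^ κ * ((n / ((2 ^ κ : ℕ) : ℤ) : ℤ) : ℝ) ≤ n := by
    have : ((2 ^ κ : ℕ) : ℤ) * (n / ((2 ^ κ : ℕ) : ℤ)) ≤ n := by linarith only [h1, h2]
    have h5 : (((2 ^ κ : ℕ) : ℤ) : ℝ) * ((n / ((2 ^ κ : ℕ) : ℤ) : ℤ) : ℝ) ≤ n := by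
      exact_mod_cast this
    push_cast at h5 ⊢
    exact h5
  have h5 : (n : ℝ) < (2 : ℝ) ^ κ * (((n / ((2 ^ κ : ℕ) : ℤ) : ℤ) : ℝ) + 1) := by
    have : n < ((2 ^ κ : ℕ) : ℤ) * (n / ((2 ^ κ : ℕ) : ℤ) + 1) := by linarith only [h1, h3]
    have h6 : (n : ℝ) < (((2 ^ κ : ℕ) : ℤ) : ℝ) * (((n / ((2 ^ κ : ℕ) : ℤ) : ℤ) : ℝ) + 1) := by
      exact_mod_cast this
    push_cast at h6 ⊢
    exact h6
  have hp : (0 : ℝ) < 2 ^ κ := by positivity
  constructor
  · rw [le_div_iff₀ hp]
    linarith only [h4]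
  · rw [div_lt_iff₀ hp]
    linarith only [h5]

/-- The coordinates of a cell. -/
theorem cell_nz {k : ℕ} {M : Fin c → Fin c → ℝ} (hM : ∀ i j, |M i j| ≤ 2 ^ k)
    (n : Fin c → ℤ) (u : Fin c → ℤ) (κ : ℕ) (i : Fin c) :
    |(nz M n i + u i) / ((2 ^ κ : ℕ) : ℤ) -
      ⌊zc M (fun j => ((n j / ((2 ^ κ : ℕ) : ℤ) : ℤ) : ℝ)) i + u i / 2 ^ κ⌋| ≤
      ((c * 2 ^ k + 2 : ℕ) : ℤ) := by
  have hp : (0 : ℝ) < 2 ^ κ := by positivity
  set v : Fin c → ℤ := fun j => n j / ((2 ^ κ : ℕ) : ℤ) with hv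
  set ρ : Fin c → ℝ := fun j => (n j : ℝ) / 2 ^ κ - v j with hρ
  have hρ1 : ∀ j, |ρ j| ≤ 1 := by
    intro j
    obtain ⟨a1, a2⟩ := ediv_real (n j) κ
    have a1' : (v j : ℝ) ≤ n j / 2 ^ κ := a1
    have a2' : (n j : ℝ) / 2 ^ κ < v j + 1 := a2
    rw [abs_le]
    constructor
    · show -1 ≤ (n j : ℝ) / 2 ^ κ - v j
      linarith only [a1]
    · show (n j : ℝ) / 2 ^ κ - v j ≤ 1
      linarith only [a2]
  have h1 := abs_zc_le (A := (2 : ℝ) ^ k) (by positivity) hM hρ1 i
  rw [abs_le] at h1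
  have h2 : zc M (fun j => (n j : ℝ)) i / 2 ^ κ = zc M (fun j => (v j : ℝ)) i + zc M ρ i := by
    rw [← zc_add]
    have : (fun j => (v j : ℝ) + ρ j) = fun j => (1 / 2 ^ κ : ℝ) * (n j : ℝ) := by
      funext j
      rw [hρ]
      simp only
      ring
    rw [this, zc_smul]
    ring
  obtain ⟨b1, b2⟩ := ediv_real (nz M n i + u i) κ
  set w : ℤ := (nz M n i + u i) / ((2 ^ κ : ℕ) : ℤ) with hw
  set x : ℤ := ⌊zc M (fun j => (v j : ℝ)) i + u i / 2 ^ κ⌋ with hx
  have c1 : (x : ℝ) ≤ zc M (fun j => (v j : ℝ)) i + u i / 2 ^ κ := Int.floor_le _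
  have c2 : zc M (fun j => (v j : ℝ)) i + u i / 2 ^ κ < x + 1 := Int.lt_floor_add_one _
  have d1 : (nz M n i : ℝ) ≤ zc M (fun j => (n j : ℝ)) i := Int.floor_le _
  have d2 : zc M (fun j => (n j : ℝ)) i < nz M n i + 1 := Int.lt_floor_add_one _
  have e1 : ((nz M n i + u i : ℤ) : ℝ) / 2 ^ κ ≤
      zc M (fun j => (n j : ℝ)) i / 2 ^ κ + u i / 2 ^ κ := by
    push_cast
    rw [← add_div]
    exact div_le_div_of_nonneg_right (by linarith only [d1]) hp.le
  have hk1 : (1 : ℝ) / 2 ^ κ ≤ 1 := by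
    rw [div_le_one hp]
    exact one_le_pow₀ (by norm_num)
  have e2 : zc M (fun j => (n j : ℝ)) i / 2 ^ κ + u i / 2 ^ κ - 1 ≤
      ((nz M n i + u i : ℤ) : ℝ) / 2 ^ κ := by
    push_cast
    have : (zc M (fun j => (n j : ℝ)) i - 1 + u i) / 2 ^ κ ≤ ((nz M n i : ℝ) + u i) / 2 ^ κ :=
      div_le_div_of_nonneg_right (by linarith only [d2]) hp.le
    rw [add_div, sub_div] at this
    linarith only [hk1, this]
  have f1 : (w : ℝ) - x < c * 2 ^ k + 2 := by linarith only [h1, h2, b1, c2, e1]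
  have f2 : -((c : ℝ) * 2 ^ k + 3) < (w : ℝ) - x := by linarith only [h1, h2, b2, c1, e2]
  rw [abs_le]
  constructor
  · have : -(((c * 2 ^ k + 3 : ℕ) : ℤ)) < w - x := by
      have h3 : ((-(((c * 2 ^ k + 3 : ℕ) : ℤ)) : ℤ) : ℝ) < ((w - x : ℤ) : ℝ) := by
        push_cast
        linarith only [h1, h2, b2, c1, e2]
      exact_mod_cast h3
    push_cast at this ⊢
    omega
  · have : w - x < ((c * 2 ^ k + 2 : ℕ) : ℤ) := by
      have h3 : ((w - x : ℤ) : ℝ) < (((c * 2 ^ k + 2 : ℕ) : ℤ) : ℝ) := by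
        push_cast
        linarith only [h1, h2, b1, c2, e1]
      exact_mod_cast h3
    exact this.le

/-- A cell in terms of its coordinates. -/
theorem cell_nz' {k : ℕ} {M M' : Fin c → Fin c → ℝ} (hM' : ∀ i j, |M' i j| ≤ 2 ^ k)
    (hinv : ∀ v, zc M' (zc M v) = v)
    (n : Fin c → ℤ) (u : Fin c → ℤ) (κ : ℕ) (j : Fin c) :
    |n j / ((2 ^ κ : ℕ) : ℤ) -
      ⌊zc M' (fun i => (((nz M n i + u i) / ((2 ^ κ : ℕ) : ℤ) : ℤ) : ℝ) - u i / 2 ^ κ) j⌋| ≤
      ((2 * c * 2 ^ k + 2 : ℕ) : ℤ) := by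
  have hp : (0 : ℝ) < 2 ^ κ := by positivity
  set w : Fin c → ℤ := fun i => (nz M n i + u i) / ((2 ^ κ : ℕ) : ℤ) with hw
  set g : Fin c → ℝ := fun i => zc M (fun j => (n j : ℝ)) i / 2 ^ κ + u i / 2 ^ κ - w i with hg
  have hg1 : ∀ i, |g i| ≤ 2 := by
    intro i
    obtain ⟨b1, b2⟩ := ediv_real (nz M n i + u i) κ
    have b1' : (w i : ℝ) ≤ ((nz M n i + u i : ℤ) : ℝ) / 2 ^ κ := b1
    have b2' : ((nz M n i + u i : ℤ) : ℝ) / 2 ^ κ < w i + 1 := b2
    have d1 : (nz M n i : ℝ) ≤ zc M (fun j => (n j : ℝ)) i := Int.floor_le _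
    have d2 : zc M (fun j => (n j : ℝ)) i < nz M n i + 1 := Int.lt_floor_add_one _
    have e1 : ((nz M n i + u i : ℤ) : ℝ) / 2 ^ κ ≤
        zc M (fun j => (n j : ℝ)) i / 2 ^ κ + u i / 2 ^ κ := by
      push_cast
      rw [← add_div]
      exact div_le_div_of_nonneg_right (by linarith only [d1]) hp.le
    have hk1 : (1 : ℝ) / 2 ^ κ ≤ 1 := by
      rw [div_le_one hp]
      exact one_le_pow₀ (by norm_num)
    have e2 : zc M (fun j => (n j : ℝ)) i / 2 ^ κ + u i / 2 ^ κ - 1 ≤
        ((nz M n i + u i : ℤ) : ℝ) / 2 ^ κ := by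
      push_cast
      have : (zc M (fun j => (n j : ℝ)) i - 1 + u i) / 2 ^ κ ≤ ((nz M n i : ℝ) + u i) / 2 ^ κ :=
        div_le_div_of_nonneg_right (by linarith only [d2]) hp.le
      rw [add_div, sub_div] at this
      linarith only [hk1, this]
    rw [abs_le]
    constructor
    · show -2 ≤ zc M (fun j => (n j : ℝ)) i / 2 ^ κ + u i / 2 ^ κ - w i
      linarith only [b1, e1]
    · show zc M (fun j => (n j : ℝ)) i / 2 ^ κ + u i / 2 ^ κ - w i ≤ 2
      linarith only [b2, e2]
  have h1 := abs_zc_le (A := (2 : ℝ) ^ k) (by positivity) hM' hg1 j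
  rw [abs_le] at h1
  have h2 : (n j : ℝ) / 2 ^ κ = zc M' (fun i => (w i : ℝ) - u i / 2 ^ κ) j + zc M' g j := by
    rw [← zc_add]
    have e1 : (fun i => (w i : ℝ) - u i / 2 ^ κ + g i) =
        fun i => (1 / 2 ^ κ : ℝ) * zc M (fun j => (n j : ℝ)) i := by
      funext i
      rw [hg]
      simp only
      ring
    rw [e1, zc_smul, hinv]
    ring
  obtain ⟨a1, a2⟩ := ediv_real (n j) κ
  set v : ℤ := n j / ((2 ^ κ : ℕ) : ℤ) with hv
  set x : ℤ := ⌊zc M' (fun i => (w i : ℝ) - u i / 2 ^ κ) j⌋ with hx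
  have c1 : (x : ℝ) ≤ zc M' (fun i => (w i : ℝ) - u i / 2 ^ κ) j := Int.floor_le _
  have c2 : zc M' (fun i => (w i : ℝ) - u i / 2 ^ κ) j < x + 1 := Int.lt_floor_add_one _
  rw [abs_le]
  constructor
  · have : -(((2 * c * 2 ^ k + 3 : ℕ) : ℤ)) < v - x := by
      have h3 : ((-(((2 * c * 2 ^ k + 3 : ℕ) : ℤ)) : ℤ) : ℝ) < ((v - x : ℤ) : ℝ) := by
        push_cast
        linarith only [h1, h2, a2, c1]
      exact_mod_cast h3
    push_cast at this ⊢
    omega
  · have : v - x < ((2 * c * 2 ^ k + 2 : ℕ) : ℤ) := by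
      have h3 : ((v - x : ℤ) : ℝ) < (((2 * c * 2 ^ k + 2 : ℕ) : ℤ) : ℝ) := by
        push_cast
        linarith only [h1, h2, a1, c2]
      exact_mod_cast h3
    exact this.le

/-- The cost of a change of coordinates. -/
noncomputable def zcost (c k : ℕ) : ℝ := c * Real.log (4 * c * 2 ^ k + 5)

/-- A variable near a function of the context. -/
theorem CH_near {q : Ω → ℝ} (hq : IsLaw q) (X : Ω → Fin c → ℤ) (Z : Ω → θ)
    (x : θ → Fin c → ℤ) (k : ℕ) (h : ∀ ω, 0 < q ω → ∀ i, |X ω i - x (Z ω) i| ≤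
      ((2 * c * 2 ^ k + 2 : ℕ) : ℤ)) : CH q X Z ≤ zcost c k := by
  classical
  set B : ℕ := 2 * c * 2 ^ k + 2 with hB
  have h1 := nf_ch_card hq X Z ((2 * B + 1) ^ c) (fun z => by
    refine ⟨Fintype.piFinset fun i => Finset.Icc (x z i - B) (x z i + B), ?_, ?_⟩
    · rw [Fintype.card_piFinset]
      have : ∀ i, (Finset.Icc (x z i - (B : ℤ)) (x z i + B)).card = 2 * B + 1 := by
        intro i
        rw [Int.card_Icc]
        have : x z i + (B : ℤ) + 1 - (x z i - B) = ((2 * B + 1 : ℕ) : ℤ) := by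
          push_cast
          ring
        rw [this, Int.toNat_natCast]
      simp only [this, Finset.prod_const, Finset.card_univ, Fintype.card_fin, le_refl]
    · intro ω hω hz
      rw [Fintype.mem_piFinset]
      intro i
      have h2 := h ω hω i
      rw [hz, abs_le] at h2
      rw [Finset.mem_Icc]
      constructor <;> linarith only [h2, h2.1, h2.2])
  refine h1.trans (le_of_eq ?_)
  unfold zcost
  push_cast
  rw [Real.log_pow, hB]
  push_cast
  congr 2
  ring

theorem zcost_le (c k : ℕ) : zcost c k ≤ c * (Real.log (4 * c + 5) + k * Real.log 2) := by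
  unfold zcost
  refine mul_le_mul_of_nonneg_left ?_ (Nat.cast_nonneg c)
  rw [← Real.log_pow, ← Real.log_mul (by positivity) (by positivity)]
  refine Real.log_le_log (by positivity) ?_
  have : (1 : ℝ) ≤ 2 ^ k := one_le_pow₀ (by norm_num)
  nlinarith only [this]

theorem zcost_nonneg (c k : ℕ) : 0 ≤ zcost c k := by
  unfold zcost
  refine mul_nonneg (Nat.cast_nonneg c) (Real.log_nonneg ?_)
  have : (0 : ℝ) ≤ 4 * c * 2 ^ k := by positivity
  linarith

/-- The entropy of a block of rows in other coordinates. -/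
theorem CH_block_z {q : Ω → ℝ} (hq : IsLaw q) (N : Ω → Fin c → ℤ) (τ : Ω → θ)
    (M : θ → Fin c → Fin c → ℝ) (k : ℕ) (hM : ∀ ω, 0 < q ω → ZOK k (M (τ ω))) {X : ℕ}
    (u : Fin c → Fin (2 ^ X)) (a a' : ℕ) :
    CH q (rc (sh (fun ω => nz (M (τ ω)) (N ω)) u) a)
        (fun ω => (rc (sh (fun ω => nz (M (τ ω)) (N ω)) u) a' ω, τ ω)) ≤
      CH q (rc N a) (fun ω => (rc N a' ω, τ ω)) + 2 * zcost c k := by
  set N' : Ω → Fin c → ℤ := sh (fun ω => nz (M (τ ω)) (N ω)) u with hN'
  have h1 := CH_block_cmp hq.nonneg (rc N a) (rc N' a) (rc N a') (rc N' a') τ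
  have h2 : CH q (rc N' a) (fun ω => (rc N a ω, τ ω)) ≤ zcost c k := by
    refine CH_near hq _ _ (fun z i => ⌊zc (M z.2) (fun j => (z.1 j : ℝ)) i +
      ((u i : ℕ) : ℤ) / 2 ^ a⌋) k fun ω hω i => ?_
    obtain ⟨b1, -⟩ := hM ω hω
    have h3 := cell_nz b1 (N ω) (fun i => ((u i : ℕ) : ℤ)) a i
    refine le_trans h3 ?_
    push_cast
    have : (0 : ℤ) ≤ c * 2 ^ k := by positivity
    linarith only [this]
  have h3 : CH q (rc N a') (fun ω => (rc N' a' ω, τ ω)) ≤ zcost c k := by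
    classical
    refine CH_near hq _ _ (fun z j => if h : ZOK k (M z.2) then
      ⌊zc h.2.choose (fun i => (z.1 i : ℝ) - ((u i : ℕ) : ℤ) / 2 ^ a') j⌋ else 0) k fun ω hω j => ?_
    have hz := hM ω hω
    simp only [dif_pos hz]
    obtain ⟨c1, c2, -⟩ := hz.2.choose_spec
    exact cell_nz' c1 c2 (N ω) (fun i => ((u i : ℕ) : ℤ)) a' j
  linarith only [h1, h2, h3]

end

/-- **Density of the low windows of `N` in coordinates depending on the sample.** -/
theorem nfv_block (c : ℕ) (hc : 0 < c) (c₀ π₁ D : ℝ) (hc₀ : 0 < c₀) (hπ : 0 < π₁) (hD : 0 ≤ D)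
    (K : ℕ) (hK : 16 * (D + Real.log 2) ≤ c₀ * (K * Real.log 2)) :
    ∃ (π₀ : ℝ) (h₀ : ℕ), 0 < π₀ ∧ K ≤ h₀ ∧ ∀ h : ℕ, h₀ ≤ h → ∀ k : ℕ, 16 * c * k ≤ c₀ * h →
      ∀ (Ω Om θ θ' : Type) [Fintype Ω] [Fintype Om] (R : Ω → ℝ) (w : Ω → Om) (P : Om → ℝ)
        (N : Om → Fin c → ℤ) (T : Om → θ') (τ : Ω → θ) (M : θ → Fin c → Fin c → ℝ) (X a : ℕ),
      IsLaw R → (∀ ω, law R w ω = P ω) → Det R τ (fun v => T (w v)) →
      (∀ v, 0 < R v → ZOK k (M (τ v))) →
      (∀ E : Set Om, π₀ ≤ Pr P E → CH (cond P (fun ω => ω ∈ E) True) (rc N a)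
        (fun ω => (rc N (a + h) ω, T ω)) ≤ (c - c₀) * (h * Real.log 2)) →
      Pr R {v | ∑ j ∈ range (h - K),
        wtz R (fun v => nz (M (τ v)) (N (w v))) τ X (a + j) K D v < c₀ / (8 * c) * h} < π₁ := by
  classical
  have hl2 : 0 < Real.log 2 := Real.log_pos (by norm_num)
  have hcr : (0 : ℝ) < c := by exact_mod_cast hc
  set γ : ℝ := c₀ / (2 * c) with hγ
  have hγ0 : 0 < γ := by positivity
  obtain ⟨h₁, hK₁, hfam⟩ := nf_fam γ π₁ D (c * Real.log 2) hγ0 hπ hD (by positivity) K (by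
    have : γ * (K * (c * Real.log 2)) = c₀ * (K * Real.log 2) / 2 := by
      rw [hγ]
      field_simp
    rw [this]
    linarith only [hK])
  obtain ⟨m, hm⟩ := exists_nat_ge (16 * c / (c₀ * π₁) + 1)
  have hm0 : (0 : ℝ) < m := by
    have : 0 < 16 * c / (c₀ * π₁) := by positivity
    linarith only [hm, this]
  have hm0' : 0 < m := by exact_mod_cast hm0
  set π₀ : ℝ := min 1 (c₀ * π₁ / (16 * c)) with hπ₀
  have hπ₀0 : 0 < π₀ := lt_min one_pos (by positivity)
  obtain ⟨h₂, hh₂⟩ := exists_nat_ge (16 * (Real.log ((m + 1 : ℕ) : ℝ) +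
    2 * c * Real.log (4 * c + 5)) / (c₀ * Real.log 2))
  refine ⟨π₀, max h₁ h₂, hπ₀0, hK₁.trans (le_max_left _ _), ?_⟩
  intro h hh k hk Ω Om θ θ' _ _ R w P N T τ M X a hR hRP hτ hM hH5
  have hh1 : h₁ ≤ h := (le_max_left _ _).trans hh
  have hh2 : (h₂ : ℝ) ≤ h := by exact_mod_cast (le_max_right _ _).trans hh
  have hP : IsLaw P := by
    refine ⟨fun ω => by rw [← hRP]; exact law_nonneg hR.nonneg _ _, ?_⟩
    rw [← hR.sum_one]
    have h1 : ∑ ω, P ω = ∑ ω ∈ univ.image w, law R w ω := by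
      rw [Finset.sum_congr rfl fun ω _ => (hRP ω).symm]
      symm
      refine Finset.sum_subset (Finset.subset_univ _) fun ω _ hω => ?_
      exact law_eq_zero_of_notMem R w hω
    rw [h1, sum_law]
  have hmain : ∀ E : Set Ω, π₁ ≤ Pr R E → ∀ u : Fin c → Fin (2 ^ X),
      CH (cond R (fun ω => ω ∈ E) True) (rc (sh (fun v => nz (M (τ v)) (N (w v))) u) a)
        (fun ω => (rc (sh (fun v => nz (M (τ v)) (N (w v))) u) (a + h) ω, τ ω)) ≤
      (1 - γ) * (h * (c * Real.log 2)) := by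
    intro E hE u
    have hE0 : 0 < Pr R E := lt_of_lt_of_le hπ hE
    have hRE : law R (fun ω => ω ∈ E) True = Pr R E := rfl
    set q : Ω → ℝ := cond R (fun ω => ω ∈ E) True with hq
    have hqL : IsLaw q := ⟨fun v => cond_nonneg hR.nonneg _ _ v, sum_cond R _ (by
      rw [hRE]; exact hE0.ne')⟩
    have hqR : ∀ v, 0 < q v → 0 < R v := fun v hv => ((cond_pos_iff hR.nonneg _ _ v).1 hv).1
    have h1 := CH_block_z hqL (fun v => N (w v)) τ M k (fun v hv => hM v (hqR v hv)) u a (a + h)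
    have h2 : CH q (rc (fun v => N (w v)) a) (fun v => (rc (fun v => N (w v)) (a + h) v, τ v)) ≤
        CH q (rc (fun v => N (w v)) a)
          (fun v => (rc (fun v => N (w v)) (a + h) v, T (w v))) := by
      refine CH_mono_cond hqL.nonneg ?_
      intro v v' hv hv' h3
      simp only [Prod.mk.injEq] at h3 ⊢
      exact ⟨h3.1, hτ v v' (hqR v hv) (hqR v' hv') h3.2⟩
    set μ : Om → ℝ := law q w with hμ
    have h3 : CH q (rc (fun v => N (w v)) a)
        (fun v => (rc (fun v => N (w v)) (a + h) v, T (w v))) =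
        CH μ (rc N a) (fun ω => (rc N (a + h) ω, T ω)) :=
      RS.CH_push (fun ω => rfl) (rc N a) (fun ω => (rc N (a + h) ω, T ω))
    have hμL : IsLaw μ := by
      refine ⟨fun ω => law_nonneg hqL.nonneg _ _, ?_⟩
      rw [← hqL.sum_one]
      have h4 : ∑ ω, μ ω = ∑ ω ∈ univ.image w, law q w ω := by
        symm
        refine Finset.sum_subset (Finset.subset_univ _) fun ω _ hω => ?_
        exact law_eq_zero_of_notMem q w hω
      rw [h4, sum_law]
    have hd : ∀ ω, μ ω ≤ 1 / π₁ * P ω := by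
      intro ω
      rw [← hRP, hμ]
      unfold law
      rw [Finset.mul_sum]
      refine Finset.sum_le_sum fun v _ => ?_
      by_cases c1 : w v = ω
      · rw [if_pos c1, if_pos c1, hq]
        unfold Pool.Agent.H49.Ent.cond
        rw [hRE]
        split_ifs
        · rw [one_div, div_eq_inv_mul]
          exact mul_le_mul_of_nonneg_right (inv_anti₀ hπ hE) (hR.nonneg v)
        · exact mul_nonneg (by positivity) (hR.nonneg v)
      · rw [if_neg c1, if_neg c1, mul_zero]
    have hB : 0 ≤ ((c : ℝ) - c₀) * (h * Real.log 2) := by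
      have h5 := hH5 Set.univ (by
        refine (min_le_left _ _).trans (le_of_eq ?_)
        rw [Pool.KAF.Pr_eq]
        simp only [Set.mem_univ, if_true, hP.sum_one])
      refine le_trans (CH_nonneg (fun ω => cond_nonneg hP.nonneg _ _ ω) _ _) h5
    have hmax : ∀ q : Om → ℝ, IsLaw q → (∀ ω, 0 < q ω → 0 < P ω) →
        CH q (rc N a) (fun ω => (rc N (a + h) ω, T ω)) ≤ h * (c * Real.log 2) := by
      intro q' hq' _
      have h5 := nf_ch_card hq' (rc N a) (fun ω => (rc N (a + h) ω, T ω)) ((2 ^ h) ^ c) (fun z =>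
        ⟨cellV h z.1, (cellV_card h z.1).le, fun ω _ hz => by
          rw [← hz]
          exact mem_cellV N a h ω⟩)
      rwa [log_cellV] at h5
    have h4 := CH_density hP hμL (C := 1 / π₁) (by positivity) hd (rc N a)
      (fun ω => (rc N (a + h) ω, T ω)) hB (by positivity) hπ₀0.le hmax hH5 m hm0'
    have h5 : (1 / π₁ / m + 1 / π₁ * π₀) ≤ c₀ / (8 * c) := by
      have e1 : 1 / π₁ / m ≤ c₀ / (16 * c) := by
        rw [div_div, div_le_div_iff₀ (by positivity) (by positivity)]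
        have e2 : 16 * c / (c₀ * π₁) ≤ m := by linarith only [hm]
        rw [div_le_iff₀ (by positivity)] at e2
        linarith only [e2]
      have e2 : 1 / π₁ * π₀ ≤ c₀ / (16 * c) := by
        have e3 : π₀ ≤ c₀ * π₁ / (16 * c) := min_le_right _ _
        calc 1 / π₁ * π₀ ≤ 1 / π₁ * (c₀ * π₁ / (16 * c)) :=
              mul_le_mul_of_nonneg_left e3 (by positivity)
          _ = c₀ / (16 * c) := by field_simp
      have e3 : c₀ / (16 * c) + c₀ / (16 * c) = c₀ / (8 * c) := by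
        field_simp
        ring
      linarith only [e1, e2, e3]
    have h6 : (1 / π₁ / m + 1 / π₁ * π₀) * (h * (c * Real.log 2)) ≤
        c₀ / 8 * (h * Real.log 2) := by
      calc _ ≤ c₀ / (8 * c) * (h * (c * Real.log 2)) :=
            mul_le_mul_of_nonneg_right h5 (by positivity)
        _ = _ := by field_simp
    have h7 : Real.log ((m + 1 : ℕ) : ℝ) + 2 * c * Real.log (4 * c + 5) ≤
        c₀ / 16 * (h * Real.log 2) := by
      have e1 := hh₂.trans hh2
      rw [div_le_iff₀ (by positivity)] at e1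
      linarith only [e1]
    have h8 : 2 * zcost c k ≤ 2 * c * Real.log (4 * c + 5) + c₀ / 8 * (h * Real.log 2) := by
      have e1 := zcost_le c k
      have e2 : (c : ℝ) * k * Real.log 2 ≤ c₀ / 16 * (h * Real.log 2) := by
        have := mul_le_mul_of_nonneg_right hk hl2.le
        linarith only [this]
      have e3 : (c : ℝ) * (Real.log (4 * c + 5) + k * Real.log 2) =
        c * Real.log (4 * c + 5) + c * k * Real.log 2 := by ring
      linarith only [e1, e2]
    have h9 : (1 - γ) * (h * (c * Real.log 2)) = (c - c₀ / 2) * (h * Real.log 2) := by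
      rw [hγ]
      field_simp
    have h10 : 0 ≤ c₀ * (h * Real.log 2) := by positivity
    rw [h9]
    rw [h3] at h2
    have h11 : ((c : ℝ) - c₀) * (h * Real.log 2) = (c - c₀ / 2) * (h * Real.log 2) -
      c₀ * (h * Real.log 2) / 2 := by ring
    linarith only [h1, h2, h4, h6, h7, h8, h10]
  have h1 := hfam h hh1 Ω θ (Fin c → ℤ) (Fin c → Fin (2 ^ X)) R
    (fun u => rc (sh (fun v => nz (M (τ v)) (N (w v))) u)) τ (cellV K) ((2 ^ K) ^ c) a hR
    (fun u κ κ' h => det_rc R _ h) (fun s => (cellV_card K s).le) (log_cellV K)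
    (fun u κ v _ => mem_cellV _ κ K v) hmain
  have h2 : γ / 4 = c₀ / (8 * c) := by
    rw [hγ]
    field_simp
    ring
  rw [h2] at h1
  refine lt_of_le_of_lt (Pr_mono hR.nonneg fun v _ hv => ?_) h1
  have h3 : ∑ j ∈ range (h - K),
      wtz R (fun v => nz (M (τ v)) (N (w v))) τ X (a + j) K D v < c₀ / (8 * c) * h := hv
  show ∑ j ∈ range (h - K), wtF R (fun u : Fin c → Fin (2 ^ X) =>
    rc (sh (fun v => nz (M (τ v)) (N (w v))) u)) τ (K * (c * Real.log 2) - D) (a + j) K v <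
      c₀ / (8 * c) * h
  refine lt_of_le_of_lt (le_of_eq ?_) h3
  exact Finset.sum_congr rfl fun j _ => (wtz_eq ..).symm

end Pool.OCM
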