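import Pool.Agent.H6.OCM.HFB
import Pool.Agent.H6.OCM.NFV

/-!
Theorem OC in codimension `c`, row ACT: a velocity of positive entropy is active in a block of
digits without holes.
-/

set_option autoImplicit false

namespace Pool.OCM

open Finset Real
open Pool.Agent.H49.Ent Pool.Agent.H32.Dense Pool.STK Pool.KAF Pool.OC

section

variable {Ω S T : Type} [Fintype Ω]

/-- The digits of `x`. -/
noncomputable def Zd (x : Ω → ℝ) (j : ℕ) (ω : Ω) : ℤ := ⌊(2 : ℝ) ^ j * x ω⌋

omit [Fintype Ω] in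
theorem Zd_nested (x : Ω → ℝ) (j K : ℕ) (ω : Ω) :
    Zd x j ω = Zd x (j + K) ω / ((2 ^ K : ℕ) : ℤ) := by
  unfold Zd
  rw [← Int.floor_div_natCast]
  congr 1
  push_cast
  rw [pow_add]
  field_simp

omit [Fintype Ω] in
theorem det_Zd (p : Ω → ℝ) (x : Ω → ℝ) {j j' : ℕ} (h : j ≤ j') : Det p (Zd x j') (Zd x j) := by
  intro ω ω' _ _ h1
  obtain ⟨K, rfl⟩ := Nat.exists_eq_add_of_le h
  rw [Zd_nested x j K ω, Zd_nested x j K ω', h1]

omit [Fintype Ω] in
theorem mem_cellF_Zd (x : Ω → ℝ) (j K : ℕ) (ω : Ω) : Zd x (j + K) ω ∈ cellF K (Zd x j ω) := by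
  have h1 := mem_cellF 0 K (Zd x (j + K) ω)
  simp only [pow_zero, Nat.cast_one, Int.ediv_one, zero_add] at h1
  rw [← Zd_nested] at h1
  exact h1

/-- The velocity is active at the digit `j`. -/
def actP (p : Ω → ℝ) (x : Ω → ℝ) (c₁ : ℝ) (k₇ j : ℕ) (ω : Ω) : Prop :=
  c₁ ≤ Pr (cond p (Zd x j) (Zd x j ω)) {v | (2 : ℝ) ^ (-((j : ℤ) + k₇)) ≤ |x v - x ω|}

theorem actP_mono {p : Ω → ℝ} (hp : ∀ ω, 0 ≤ p ω) (x : Ω → ℝ) {c₁ c₁' : ℝ} {k k' : ℕ}
    (hc : c₁ ≤ c₁') (hk : k' ≤ k) {j : ℕ} {ω : Ω} (h : actP p x c₁' k' j ω) :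
    actP p x c₁ k j ω := by
  unfold actP at h ⊢
  refine hc.trans (h.trans (Pr_mono (fun v => cond_nonneg hp _ _ v) fun v _ hv => ?_))
  have h1 : (2 : ℝ) ^ (-((j : ℤ) + k')) ≤ |x v - x ω| := hv
  show (2 : ℝ) ^ (-((j : ℤ) + k)) ≤ |x v - x ω|
  refine le_trans ?_ h1
  exact zpow_le_zpow_right₀ (by norm_num) (by
    have : (k' : ℤ) ≤ k := by exact_mod_cast hk
    omega)

/-- Activity at a digit from the activity at the next one. -/
theorem actP_prev {p : Ω → ℝ} (hp : ∀ ω, 0 ≤ p ω) (x : Ω → ℝ) {c₁ δ : ℝ} {k j : ℕ} {ω : Ω}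
    (hω : 0 < p ω) (hδ : 0 ≤ δ) (h : actP p x c₁ k (j + 1) ω)
    (hd : δ ≤ law (cond p (Zd x j) (Zd x j ω)) (Zd x (j + 1)) (Zd x (j + 1) ω)) :
    actP p x (δ * c₁) (k + 1) j ω := by
  classical
  unfold actP at h ⊢
  set z := Zd x j ω with hz
  set z' := Zd x (j + 1) ω with hz'
  set E : Set Ω := {v | (2 : ℝ) ^ (-((j : ℤ) + (k + 1 : ℕ))) ≤ |x v - x ω|} with hE
  set E' : Set Ω := {v | (2 : ℝ) ^ (-(((j + 1 : ℕ) : ℤ) + k)) ≤ |x v - x ω|} with hE'
  have hEE : E = E' := by
    rw [hE, hE']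
    push_cast
    rw [show (j : ℤ) + (k + 1) = j + 1 + k by ring]
  have hl : 0 < law p (Zd x j) z := law_pos hp _ hω
  have hl' : 0 < law p (Zd x (j + 1)) z' := law_pos hp _ hω
  have h1 : law (cond p (Zd x j) z) (Zd x (j + 1)) z' =
      law p (Zd x (j + 1)) z' / law p (Zd x j) z := by
    rw [law_cond]
    congr 1
    unfold law
    refine Finset.sum_congr rfl fun v _ => ?_
    by_cases c1 : Zd x (j + 1) v = z'
    · have c2 : Zd x j v = z := by
        rw [Zd_nested x j 1 v, c1, hz, Zd_nested x j 1 ω]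
      rw [if_pos c1, if_pos (Prod.ext c1 c2)]
    · rw [if_neg c1, if_neg (fun h => c1 (Prod.ext_iff.mp h).1)]
  have h2 : law p (Zd x (j + 1)) z' / law p (Zd x j) z *
      Pr (cond p (Zd x (j + 1)) z') E' ≤ Pr (cond p (Zd x j) z) E := by
    rw [hEE, Pool.KAF.Pr_eq, Pool.KAF.Pr_eq, Finset.mul_sum]
    refine Finset.sum_le_sum fun v _ => ?_
    by_cases cE : v ∈ E'
    · rw [if_pos cE, if_pos cE]
      unfold Pool.Agent.H49.Ent.cond
      by_cases c1 : Zd x (j + 1) v = z'
      · have c2 : Zd x j v = z := by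
          rw [Zd_nested x j 1 v, c1, hz, Zd_nested x j 1 ω]
        rw [if_pos c1, if_pos c2]
        refine le_of_eq ?_
        field_simp
      · rw [if_neg c1, mul_zero]
        split_ifs
        · exact div_nonneg (hp v) hl.le
        · exact le_rfl
    · rw [if_neg cE, if_neg cE, mul_zero]
  rw [h1] at hd
  refine le_trans ?_ h2
  have h3 : 0 ≤ Pr (cond p (Zd x (j + 1)) z') E' := by
    rw [Pool.KAF.Pr_eq]
    refine Finset.sum_nonneg fun v _ => ?_
    split_ifs
    · exact cond_nonneg hp _ _ v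
    · exact le_rfl
  calc δ * c₁ ≤ δ * Pr (cond p (Zd x (j + 1)) z') E' := mul_le_mul_of_nonneg_left h hδ
    _ ≤ _ := mul_le_mul_of_nonneg_right hd h3

/-- The values of small probability. -/
theorem Pr_small_le {q : Ω → ℝ} (hq : IsLaw q) (X : Ω → S) (F : Finset S)
    (hF : ∀ ω, 0 < q ω → X ω ∈ F) (δ : ℝ) (hδ : 0 ≤ δ) :
    Pr q {v | law q X (X v) < δ} ≤ F.card * δ := by
  classical
  have h1 : Pr q {v | law q X (X v) < δ} =
      ∑ ω, q ω * (if law q X (X ω) < δ then 1 else 0) := by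
    rw [Pool.KAF.Pr_eq]
    refine Finset.sum_congr rfl fun ω _ => ?_
    by_cases c : law q X (X ω) < δ
    · rw [if_pos (show ω ∈ {v | law q X (X v) < δ} from c), if_pos c, mul_one]
    · rw [if_neg (show ω ∉ {v | law q X (X v) < δ} from c), if_neg c, mul_zero]
  rw [h1, sum_mul_eq_sum_image q X (fun s => if law q X s < δ then 1 else 0)]
  calc ∑ s ∈ univ.image X, law q X s * (if law q X s < δ then (1 : ℝ) else 0)
      ≤ ∑ s ∈ univ.image X ∪ F, law q X s * (if law q X s < δ then (1 : ℝ) else 0) := by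
        refine Finset.sum_le_sum_of_subset_of_nonneg Finset.subset_union_left fun s _ _ => ?_
        have := law_nonneg hq.nonneg X s
        split_ifs <;> simp [this]
    _ = ∑ s ∈ F, law q X s * (if law q X s < δ then (1 : ℝ) else 0) := by
        symm
        refine Finset.sum_subset Finset.subset_union_right fun s _ hs => ?_
        rw [law_zero_off hq.nonneg X F hF hs, zero_mul]
    _ ≤ ∑ _s ∈ F, δ := by
        refine Finset.sum_le_sum fun s _ => ?_
        have := law_nonneg hq.nonneg X s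
        split_ifs with h
        · rw [mul_one]
          exact h.le
        · rw [mul_zero]
          exact hδ
    _ = F.card * δ := by rw [sum_const, nsmul_eq_mul]

/-- Entropy of a variable which is in a small set on an event. -/
theorem H_split {q : Ω → ℝ} (hq : IsLaw q) (X : Ω → S) (E : Set Ω) (F₁ F₂ : Finset S)
    (n₁ : ℕ) (hn₁ : F₁.card ≤ n₁) (h1n : 1 ≤ n₁)
    (h1 : ∀ ω, 0 < q ω → ω ∈ E → X ω ∈ F₁) (h2 : ∀ ω, 0 < q ω → X ω ∈ F₂) :
    H q X ≤ Real.log 2 + Real.log n₁ + Pr q Eᶜ * Real.log F₂.card := by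
  classical
  set b : Ω → Prop := fun ω => ω ∈ E with hb
  have e1 : H q X ≤ H q (fun ω => (X ω, b ω)) :=
    H_mono hq.nonneg fun ω ω' _ _ h => (Prod.ext_iff.mp h).1
  have e2 : H q (fun ω => (X ω, b ω)) = CH q X b + H q b := by
    unfold CH
    ring
  have e3 : H q b ≤ Real.log 2 := by
    refine (H_le_log_card hq.nonneg hq.sum_one b (F := {True, False}) fun ω _ => ?_).trans ?_
    · by_cases h : ω ∈ E <;> simp [hb, h]
    · refine Real.log_le_log ?_ ?_
      · exact_mod_cast Finset.card_pos.2 ⟨True, by simp⟩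
      · exact_mod_cast Finset.card_le_two
  have hl1 : 0 ≤ Real.log n₁ := Real.log_nonneg (by exact_mod_cast h1n)
  have e4 : CH q X b ≤ Real.log n₁ + Pr q Eᶜ * Real.log F₂.card := by
    rw [← Pool.KAL.CDF.Ex_H hq.nonneg X b]
    unfold Ex
    have e5 : ∀ ω, q ω * H (cond q b (b ω)) X ≤ q ω * Real.log n₁ +
        (if ω ∈ Eᶜ then q ω else 0) * Real.log F₂.card := by
      intro ω
      rcases (hq.nonneg ω).eq_or_lt with h0 | h0
      · rw [← h0]
        simp
      · have hql := isLaw_cond hq b h0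
        by_cases hω : ω ∈ E
        · have e6 : H (cond q b (b ω)) X ≤ Real.log F₁.card := by
            refine H_le_log_card hql.nonneg hql.sum_one X _ fun v hv => ?_
            obtain ⟨a1, a2⟩ := (cond_pos_iff hq.nonneg b (b ω) v).1 hv
            refine h1 v a1 ?_
            have : b v := by rw [a2]; exact hω
            exact this
          have e7 : Real.log F₁.card ≤ Real.log n₁ := by
            refine Real.log_le_log ?_ (by exact_mod_cast hn₁)
            exact_mod_cast Finset.card_pos.2 ⟨_, h1 ω h0 hω⟩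
          have e8 : (if ω ∈ Eᶜ then q ω else 0) = 0 := if_neg (fun h => h hω)
          rw [e8, zero_mul, add_zero]
          exact mul_le_mul_of_nonneg_left (e6.trans e7) h0.le
        · have e6 : H (cond q b (b ω)) X ≤ Real.log F₂.card := by
            refine H_le_log_card hql.nonneg hql.sum_one X _ fun v hv => ?_
            exact h2 v ((cond_pos_iff hq.nonneg b (b ω) v).1 hv).1
          rw [if_pos (show ω ∈ Eᶜ from hω)]
          have e7 : 0 ≤ q ω * Real.log n₁ := mul_nonneg h0.le hl1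
          have e8 := mul_le_mul_of_nonneg_left e6 h0.le
          linarith
    refine (Finset.sum_le_sum fun ω _ => e5 ω).trans (le_of_eq ?_)
    rw [Finset.sum_add_distrib, ← Finset.sum_mul, ← Finset.sum_mul, hq.sum_one, one_mul,
      ← Pool.KAF.Pr_eq]
  linarith

/-- The entropy of the next digits when the velocity is not active. -/
theorem H_inactive {p : Ω → ℝ} (hp : IsLaw p) (x : Ω → ℝ) {c₁ : ℝ} {K j : ℕ} {ω : Ω}
    (hω : 0 < p ω) (h : ¬ actP p x c₁ K j ω) :
    H (cond p (Zd x j) (Zd x j ω)) (Zd x (j + K)) ≤ 3 * Real.log 2 + c₁ * (K * Real.log 2) := by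
  classical
  have hl2 : 0 < Real.log 2 := Real.log_pos (by norm_num)
  set q := cond p (Zd x j) (Zd x j ω) with hq
  have hql : IsLaw q := isLaw_cond hp _ hω
  set E : Set Ω := {v | |x v - x ω| < (2 : ℝ) ^ (-((j : ℤ) + K))} with hE
  have hEc : Eᶜ = {v | (2 : ℝ) ^ (-((j : ℤ) + K)) ≤ |x v - x ω|} := by
    ext v
    simp only [hE, Set.mem_compl_iff, Set.mem_ofPred_eq, not_lt]
  have hPr : Pr q Eᶜ < c₁ := by
    rw [hEc]
    exact not_le.1 h
  set z := Zd x (j + K) ω with hz
  have h1 := H_split hql (Zd x (j + K)) E {z - 1, z, z + 1} (cellF K (Zd x j ω)) 3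
    (Finset.card_le_three) (by norm_num) (fun v _ hv => by
      have h2 : |x v - x ω| < (2 : ℝ) ^ (-((j : ℤ) + K)) := hv
      have h3 : |(2 : ℝ) ^ (j + K) * x v - 2 ^ (j + K) * x ω| < 1 := by
        rw [← mul_sub, abs_mul, abs_of_pos (by positivity)]
        have h4 : (2 : ℝ) ^ (j + K) * (2 : ℝ) ^ (-((j : ℤ) + K)) = 1 := by
          rw [← zpow_natCast, ← zpow_add₀ (by norm_num)]
          push_cast
          rw [add_neg_cancel, zpow_zero]
        rw [← h4]
        exact mul_lt_mul_of_pos_left h2 (by positivity)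
      rw [abs_lt] at h3
      have h5 : Zd x (j + K) v < z + 2 := by
        unfold Zd
        rw [Int.floor_lt]
        have := Int.lt_floor_add_one ((2 : ℝ) ^ (j + K) * x ω)
        push_cast
        have hz' : (z : ℝ) = (⌊(2 : ℝ) ^ (j + K) * x ω⌋ : ℤ) := rfl
        rw [hz']
        linarith [h3.2]
      have h6 : z - 2 < Zd x (j + K) v := by
        have h7 : z - 1 ≤ Zd x (j + K) v := by
          unfold Zd
          rw [Int.le_floor]
          have := Int.floor_le ((2 : ℝ) ^ (j + K) * x ω)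
          push_cast
          have hz' : (z : ℝ) = (⌊(2 : ℝ) ^ (j + K) * x ω⌋ : ℤ) := rfl
          rw [hz']
          linarith [h3.1]
        omega
      simp only [Finset.mem_insert, Finset.mem_singleton]
      omega) (fun v hv => by
      obtain ⟨a1, a2⟩ := (cond_pos_iff hp.nonneg _ _ v).1 hv
      rw [← a2]
      exact mem_cellF_Zd x j K v)
  rw [cellF_card] at h1
  have h2 : Real.log ((2 ^ K : ℕ) : ℝ) = K * Real.log 2 := by
    push_cast
    rw [Real.log_pow]
  rw [h2] at h1
  have h3 : Real.log ((3 : ℕ) : ℝ) ≤ 2 * Real.log 2 := by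
    have : (2 : ℝ) * Real.log 2 = Real.log ((2 : ℝ) ^ 2) := by
      rw [Real.log_pow]
      norm_num
    rw [this]
    refine Real.log_le_log (by norm_num) (by norm_num)
  have h4 : Pr q Eᶜ * (K * Real.log 2) ≤ c₁ * (K * Real.log 2) :=
    mul_le_mul_of_nonneg_right hPr.le (by positivity)
  linarith

/-- Windows of a monotone sequence, from below. -/
theorem tel_ge {k : ℕ → ℝ} (hk : Monotone k) (n K : ℕ) :
    K * (k n - k K) ≤ ∑ j ∈ range n, (k (j + K) - k j) := by
  have h1 : ∀ j ∈ range n, k (j + K) - k j =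
      ∑ i ∈ range K, (k (j + i + 1) - k (j + i)) := by
    intro j _
    exact (Finset.sum_range_sub (fun i => k (j + i)) K).symm
  rw [Finset.sum_congr rfl h1, Finset.sum_comm]
  have h2 : ∀ i ∈ range K, k n - k K ≤ ∑ j ∈ range n, (k (j + i + 1) - k (j + i)) := by
    intro i hi
    have h3 := Finset.sum_range_sub (fun j => k (j + i)) n
    have h4 : ∑ j ∈ range n, (k (j + i + 1) - k (j + i)) =
        ∑ j ∈ range n, (k (j + 1 + i) - k (j + i)) := by
      refine Finset.sum_congr rfl fun j _ => ?_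
      rw [show j + i + 1 = j + 1 + i by ring]
    rw [h4, h3]
    have hi' := mem_range.1 hi
    have h5 : k n ≤ k (n + i) := hk (by omega)
    have h6 : k (0 + i) ≤ k K := hk (by omega)
    linarith
  calc K * (k n - k K) = ∑ _i ∈ range K, (k n - k K) := by
        rw [sum_const, card_range, nsmul_eq_mul]
    _ ≤ _ := Finset.sum_le_sum h2

/-- The mean number of digits where the velocity is active. -/
theorem act_mean {p : Ω → ℝ} (hp : IsLaw p) (om : Ω → ℤ) (x : Ω → ℝ) (X A K : ℕ) (ca c₁ : ℝ)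
    (hx : ∀ ω, x ω = om ω / 2 ^ X) (hA : ∀ ω, 0 < p ω → |x ω| ≤ 2 ^ A) (hK : 1 ≤ K)
    (hc : 0 ≤ c₁) (hH : ca * X * Real.log 2 ≤ H p om) :
    ca * X - (A + K + 2) - 3 / K * X - c₁ * X ≤
      ∑ j ∈ range X, Pr p {ω | actP p x c₁ K j ω} := by
  classical
  have hl2 : 0 < Real.log 2 := Real.log_pos (by norm_num)
  have hKr : (0 : ℝ) < K := by exact_mod_cast (by omega : 0 < K)
  -- one digit
  have hone : ∀ j, CH p (Zd x (j + K)) (Zd x j) ≤
      Pr p {ω | actP p x c₁ K j ω} * (K * Real.log 2) +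
        (3 * Real.log 2 + c₁ * (K * Real.log 2)) := by
    intro j
    rw [← Pool.KAL.CDF.Ex_H hp.nonneg (Zd x (j + K)) (Zd x j)]
    unfold Ex
    have e1 : ∀ ω, p ω * H (cond p (Zd x j) (Zd x j ω)) (Zd x (j + K)) ≤
        (if ω ∈ {ω | actP p x c₁ K j ω} then p ω else 0) * (K * Real.log 2) +
          p ω * (3 * Real.log 2 + c₁ * (K * Real.log 2)) := by
      intro ω
      rcases (hp.nonneg ω).eq_or_lt with h0 | h0
      · rw [← h0]
        simp
      · by_cases ha : actP p x c₁ K j ω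
        · rw [if_pos (show ω ∈ {ω | actP p x c₁ K j ω} from ha)]
          have hql := isLaw_cond hp (Zd x j) h0
          have e2 : H (cond p (Zd x j) (Zd x j ω)) (Zd x (j + K)) ≤ K * Real.log 2 := by
            refine (H_le_log_card hql.nonneg hql.sum_one _ (F := cellF K (Zd x j ω))
              fun v hv => ?_).trans (le_of_eq ?_)
            · obtain ⟨a1, a2⟩ := (cond_pos_iff hp.nonneg _ _ v).1 hv
              rw [← a2]
              exact mem_cellF_Zd x j K v
            · rw [cellF_card]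
              push_cast
              rw [Real.log_pow]
          have e3 := mul_le_mul_of_nonneg_left e2 h0.le
          have e4 : 0 ≤ p ω * (3 * Real.log 2 + c₁ * (K * Real.log 2)) := by positivity
          linarith
        · rw [if_neg (show ω ∉ {ω | actP p x c₁ K j ω} from ha), zero_mul, zero_add]
          exact mul_le_mul_of_nonneg_left (H_inactive hp x h0 ha) h0.le
    refine (Finset.sum_le_sum fun ω _ => e1 ω).trans (le_of_eq ?_)
    rw [Finset.sum_add_distrib, ← Finset.sum_mul, ← Finset.sum_mul, hp.sum_one, one_mul,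
      ← Pool.KAF.Pr_eq]
  -- the sum of the windows
  have hCH : ∀ j, CH p (Zd x (j + K)) (Zd x j) = H p (Zd x (j + K)) - H p (Zd x j) := by
    intro j
    unfold CH
    have : H p (fun ω => (Zd x (j + K) ω, Zd x j ω)) = H p (Zd x (j + K)) :=
      H_congr hp.nonneg (fun ω ω' a b h => Prod.ext h (det_Zd p x (Nat.le_add_right j K) ω ω' a b h))
        (fun ω ω' _ _ h => (Prod.ext_iff.mp h).1)
    rw [this]
  have hmono : Monotone (fun j => H p (Zd x j)) := by
    intro i j hij
    exact H_mono hp.nonneg (det_Zd p x hij)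
  have h1 := tel_ge hmono X K
  have h2 := Finset.sum_le_sum fun j (_ : j ∈ range X) => hone j
  rw [Finset.sum_congr rfl fun j _ => hCH j] at h2
  have h3 : H p (Zd x X) = H p om := by
    have : Zd x X = om := by
      funext ω
      unfold Zd
      rw [hx, mul_div_cancel₀ _ (by positivity), Int.floor_intCast]
    rw [this]
  have h4 : H p (Zd x K) ≤ (A + K + 2) * Real.log 2 := by
    set B : ℤ := ((2 ^ (A + K) : ℕ) : ℤ) with hB
    have e1 : ∀ ω, 0 < p ω → Zd x K ω ∈ Finset.Icc (-B) B := by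
      intro ω hω
      have h5 := hA ω hω
      rw [abs_le] at h5
      have h6 : (2 : ℝ) ^ K * 2 ^ A = 2 ^ (A + K) := by rw [← pow_add, add_comm]
      have h7 : (2 : ℝ) ^ K * x ω ≤ 2 ^ (A + K) := by
        rw [← h6]
        exact mul_le_mul_of_nonneg_left h5.2 (by positivity)
      have h8 : -(2 : ℝ) ^ (A + K) ≤ (2 : ℝ) ^ K * x ω := by
        have := mul_le_mul_of_nonneg_left h5.1 (by positivity : (0 : ℝ) ≤ 2 ^ K)
        rw [mul_neg, h6] at this
        exact this
      rw [Finset.mem_Icc]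
      constructor
      · unfold Zd
        rw [Int.le_floor, hB]
        push_cast
        exact h8
      · have : ((Zd x K ω : ℤ) : ℝ) ≤ ((B : ℤ) : ℝ) := by
          refine (Int.floor_le _).trans ?_
          rw [hB]
          push_cast
          exact h7
        exact_mod_cast this
    refine (H_le_log_card hp.nonneg hp.sum_one _ _ e1).trans ?_
    have e2 : ((Finset.Icc (-B) B).card : ℝ) ≤ 2 ^ (A + K + 2) := by
      rw [Int.card_Icc]
      have h5 : (B + 1 - -B).toNat = 2 * 2 ^ (A + K) + 1 := by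
        rw [hB]
        have : (((2 ^ (A + K) : ℕ) : ℤ) + 1 - -((2 ^ (A + K) : ℕ) : ℤ)) =
          ((2 * 2 ^ (A + K) + 1 : ℕ) : ℤ) := by
          push_cast
          ring
        rw [this, Int.toNat_natCast]
      rw [h5]
      push_cast
      have h6 : (1 : ℝ) ≤ 2 ^ (A + K) := one_le_pow₀ (by norm_num)
      rw [pow_add (2 : ℝ) (A + K) 2]
      linarith
    have e3 : (0 : ℝ) < ((Finset.Icc (-B) B).card : ℝ) := by
      have h5 : (0 : ℤ) ≤ B := by rw [hB]; positivity
      exact_mod_cast Finset.card_pos.2 ⟨0, by rw [Finset.mem_Icc]; constructor <;> linarith⟩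
    refine (Real.log_le_log e3 e2).trans (le_of_eq ?_)
    rw [Real.log_pow]
    push_cast
    ring
  rw [h3] at h1
  rw [Finset.sum_add_distrib, ← Finset.sum_mul, sum_const, card_range, nsmul_eq_mul] at h2
  set Sg : ℝ := ∑ j ∈ range X, Pr p {ω | actP p x c₁ K j ω} with hSg
  have h5 : K * (ca * X * Real.log 2 - (A + K + 2) * Real.log 2) ≤ K * (H p om - H p (Zd x K)) :=
    mul_le_mul_of_nonneg_left (by linarith) hKr.le
  have h6 : (K * Real.log 2) * (ca * X - (A + K + 2) - 3 / K * X - c₁ * X) ≤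
      (K * Real.log 2) * Sg := by
    have e1 : (K * Real.log 2) * (3 / K * X) = X * (3 * Real.log 2) := by
      field_simp
    have e2 : (K * Real.log 2) * (ca * X - (A + K + 2) - 3 / K * X - c₁ * X) =
      K * (ca * X * Real.log 2 - (A + K + 2) * Real.log 2) - (K * Real.log 2) * (3 / K * X) -
        X * (c₁ * (K * Real.log 2)) := by ring
    rw [e2, e1]
    linarith
  exact le_of_mul_le_mul_left h6 (by positivity)

end

end Pool.OCM
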