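import Pool.Agent.H6.OCM.Act

/-!
Theorem OC in codimension `c`, row ACT.
-/

set_option autoImplicit false

namespace Pool.OCM

open Finset Real
open Pool.Agent.H49.Ent Pool.Agent.H32.Dense Pool.STK Pool.KAF Pool.OC

open Classical in
theorem cntJ_eq_sum (J : Set ℕ) (X : ℕ) :
    (cntJ J 0 X : ℝ) = ∑ j ∈ range X, if j ∈ J then (1 : ℝ) else 0 := by
  unfold cntJ
  rw [zero_add, ← Finset.range_eq_Ico, Finset.card_filter]
  push_cast
  exact Finset.sum_congr rfl fun j _ => by split_ifs <;> rfl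

section

variable {Ω : Type} [Fintype Ω]

/-- The digit is not determined. -/
theorem Pr_digit_small {p : Ω → ℝ} (hp : IsLaw p) (x : Ω → ℝ) (j : ℕ) (δ : ℝ) (hδ : 0 ≤ δ) :
    Pr p {ω | law (cond p (Zd x j) (Zd x j ω)) (Zd x (j + 1)) (Zd x (j + 1) ω) < δ} ≤ 2 * δ := by
  classical
  rw [← Pool.KAL.CDF.Ex_Pr hp.nonneg (Zd x j)]
  unfold Ex
  have h1 : ∀ ω, p ω * Pr (cond p (Zd x j) (Zd x j ω))
      {ω | law (cond p (Zd x j) (Zd x j ω)) (Zd x (j + 1)) (Zd x (j + 1) ω) < δ} ≤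
      p ω * (2 * δ) := by
    intro ω
    rcases (hp.nonneg ω).eq_or_lt with h0 | h0
    · rw [← h0]
      simp
    · refine mul_le_mul_of_nonneg_left ?_ h0.le
      have hq := isLaw_cond hp (Zd x j) h0
      have h2 := Pr_small_le hq (Zd x (j + 1)) (cellF 1 (Zd x j ω)) (fun v hv => by
        obtain ⟨a1, a2⟩ := (cond_pos_iff hp.nonneg _ _ v).1 hv
        rw [← a2]
        exact mem_cellF_Zd x j 1 v) δ hδ
      rw [cellF_card] at h2
      push_cast at h2
      refine le_trans (Pr_mono hq.nonneg fun v hv hvE => ?_) h2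
      obtain ⟨a1, a2⟩ := (cond_pos_iff hp.nonneg _ _ v).1 hv
      have h3 : law (cond p (Zd x j) (Zd x j v)) (Zd x (j + 1)) (Zd x (j + 1) v) < δ := hvE
      rw [a2] at h3
      exact h3
  refine (Finset.sum_le_sum fun ω _ => h1 ω).trans (le_of_eq ?_)
  rw [← Finset.sum_mul, hp.sum_one, one_mul]

/-- The digits where the velocity is active, also at the next digit. -/
def actJ (p : Ω → ℝ) (x : Ω → ℝ) (c₁ : ℝ) (k : ℕ) (ω : Ω) : Set ℕ :=
  {j | actP p x c₁ k j ω ∧ actP p x c₁ k (j + 1) ω}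

/-- The mean number of digits where the velocity is active, also at the next digit. -/
theorem act_thick {p : Ω → ℝ} (hp : IsLaw p) (om : Ω → ℤ) (x : Ω → ℝ) (X A K : ℕ) (ca c₁ δ : ℝ)
    (hx : ∀ ω, x ω = om ω / 2 ^ X) (hA : ∀ ω, 0 < p ω → |x ω| ≤ 2 ^ A) (hK : 1 ≤ K)
    (hc : 0 ≤ c₁) (hδ : 0 ≤ δ) (hδ1 : δ ≤ 1) (hH : ca * X * Real.log 2 ≤ H p om) :
    ca * X - (A + K + 2) - 3 / K * X - c₁ * X - 2 * δ * X - 1 ≤
      ∑ ω, p ω * (cntJ (actJ p x (δ * c₁) (K + 1) ω) 0 X : ℝ) := by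
  classical
  have h1 := act_mean hp om x X A K ca c₁ hx hA hK hc hH
  -- shift by one digit
  have h2 : ∑ j ∈ range X, Pr p {ω | actP p x c₁ K j ω} ≤
      ∑ j ∈ range X, Pr p {ω | actP p x c₁ K (j + 1) ω} + 1 := by
    have e1 := Finset.sum_range_succ' (fun j => Pr p {ω | actP p x c₁ K j ω}) X
    have e2 := Finset.sum_range_succ (fun j => Pr p {ω | actP p x c₁ K j ω}) X
    have e3 : Pr p {ω | actP p x c₁ K 0 ω} ≤ 1 := Pr_le_one hp _
    have e4 : 0 ≤ Pr p {ω | actP p x c₁ K X ω} := law_nonneg hp.nonneg _ _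
    linarith
  have h3 : ∀ j, Pr p {ω | actP p x c₁ K (j + 1) ω} ≤
      Pr p {ω | j ∈ actJ p x (δ * c₁) (K + 1) ω} + 2 * δ := by
    intro j
    have e1 := Pr_digit_small hp x j δ hδ
    have e2 : Pr p {ω | actP p x c₁ K (j + 1) ω} ≤ Pr p ({ω | j ∈ actJ p x (δ * c₁) (K + 1) ω} ∪
        {ω | law (cond p (Zd x j) (Zd x j ω)) (Zd x (j + 1)) (Zd x (j + 1) ω) < δ}) := by
      refine Pr_mono hp.nonneg fun ω hω ha => ?_
      have ha' : actP p x c₁ K (j + 1) ω := ha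
      by_cases hd : law (cond p (Zd x j) (Zd x j ω)) (Zd x (j + 1)) (Zd x (j + 1) ω) < δ
      · exact Or.inr hd
      · refine Or.inl ⟨actP_prev hp.nonneg x hω hδ ha' (not_lt.1 hd), ?_⟩
        refine actP_mono hp.nonneg x ?_ (Nat.le_succ K) ha'
        nlinarith
    refine e2.trans ((Pr_union_le hp.nonneg _ _).trans ?_)
    linarith
  have h4 : ∑ ω, p ω * (cntJ (actJ p x (δ * c₁) (K + 1) ω) 0 X : ℝ) =
      ∑ j ∈ range X, Pr p {ω | j ∈ actJ p x (δ * c₁) (K + 1) ω} := by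
    have e1 : ∀ ω, p ω * (cntJ (actJ p x (δ * c₁) (K + 1) ω) 0 X : ℝ) =
        ∑ j ∈ range X, if ω ∈ {ω | j ∈ actJ p x (δ * c₁) (K + 1) ω} then p ω else 0 := by
      intro ω
      rw [cntJ_eq_sum, Finset.mul_sum]
      refine Finset.sum_congr rfl fun j _ => ?_
      by_cases hj : j ∈ actJ p x (δ * c₁) (K + 1) ω
      · rw [if_pos hj, if_pos (show ω ∈ {ω | j ∈ actJ p x (δ * c₁) (K + 1) ω} from hj), mul_one]
      · rw [if_neg hj, if_neg (show ω ∉ {ω | j ∈ actJ p x (δ * c₁) (K + 1) ω} from hj), mul_zero]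
    rw [Finset.sum_congr rfl fun ω _ => e1 ω, Finset.sum_comm]
    refine Finset.sum_congr rfl fun j _ => ?_
    rw [Pool.KAF.Pr_eq]
  have h5 := Finset.sum_le_sum fun j (_ : j ∈ range X) => h3 j
  rw [Finset.sum_add_distrib, sum_const, card_range, nsmul_eq_mul] at h5
  rw [h4]
  linarith

end

/-- **Row ACT.** -/
theorem actv_thm (c : ℕ) : ACTVStmt c := by
  classical
  intro A ca hca
  set θ : ℝ := min ca 1 / 4 with hθ
  have hθ0 : 0 < θ := by
    rw [hθ]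
    have : 0 < min ca 1 := lt_min hca one_pos
    positivity
  have hθ1 : θ ≤ 1 / 4 := by
    rw [hθ]
    have : min ca 1 ≤ 1 := min_le_right _ _
    linarith
  have hθca : θ ≤ ca / 4 := by
    rw [hθ]
    have : min ca 1 ≤ ca := min_le_left _ _
    linarith
  obtain ⟨K, hK⟩ := exists_nat_ge (24 / ca)
  have hK0 : (0 : ℝ) < K := lt_of_lt_of_le (by positivity) hK
  have hK1 : 1 ≤ K := by exact_mod_cast hK0
  set c₁ : ℝ := ca / 8 with hc₁
  set δ : ℝ := min (ca / 8) 1 with hδ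
  have hδ0 : 0 < δ := lt_min (by positivity) one_pos
  have hδ1 : δ ≤ 1 := min_le_right _ _
  have hδca : δ ≤ ca / 8 := min_le_left _ _
  refine ⟨δ * c₁, θ / 8 / 4, K + 1, by positivity, by positivity, by linarith, ?_⟩
  intro ρ hρ hρ1
  obtain ⟨n₀, lam, X₁, hlam, hhfb⟩ := hfb (θ / 8) ρ (by positivity) (by linarith) hρ hρ1
  obtain ⟨X₂, hX₂⟩ := exists_nat_ge (((A : ℝ) + K + 3) * 4 / ca + 1)
  refine ⟨n₀, lam, θ / 2 / (n₀ + 1), max X₁ X₂, by positivity, hlam, ?_⟩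
  intro d hok hX h4
  have hX1 : X₁ ≤ d.X := (le_max_left _ _).trans hX
  have hX2 : ((A : ℝ) + K + 3) * 4 / ca + 1 ≤ d.X :=
    hX₂.trans (by exact_mod_cast (le_max_right _ _).trans hX)
  have hX3 : ((A : ℝ) + K + 3) * 4 ≤ ca * d.X := by
    have : ((A : ℝ) + K + 3) * 4 / ca ≤ d.X := by linarith
    rw [div_le_iff₀ hca] at this
    linarith
  have hXpos : (0 : ℝ) < d.X := by
    have : 0 ≤ ((A : ℝ) + K + 3) * 4 / ca := by positivity
    linarith
  set x : d.Om → ℝ := fun ω => d.omR (d.L ω) with hx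
  set J : d.Om → Set ℕ := actJ d.P x (δ * c₁) (K + 1) with hJ
  have hmean := act_thick hok.law (fun ω => d.om (d.L ω)) x d.X A K ca c₁ δ (fun _ => rfl)
    hok.hom hK1 (by positivity) hδ0.le hδ1 h4
  have hmean' : θ * d.X ≤ ∑ ω, d.P ω * (cntJ (J ω) 0 d.X : ℝ) := by
    refine le_trans ?_ hmean
    have e1 : 3 / (K : ℝ) * d.X ≤ ca / 8 * d.X := by
      refine mul_le_mul_of_nonneg_right ?_ hXpos.le
      rw [div_le_iff₀ hK0]
      rw [div_le_iff₀ hca] at hK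
      linarith
    have e2 : 2 * δ * d.X ≤ ca / 4 * d.X := mul_le_mul_of_nonneg_right (by linarith) hXpos.le
    have e3 : θ * d.X ≤ ca / 4 * d.X := mul_le_mul_of_nonneg_right hθca hXpos.le
    have e4 : (A : ℝ) + K + 3 ≤ ca / 4 * d.X := by linarith
    have e5 : ca * (d.X : ℝ) = ca / 4 * d.X + ca / 8 * d.X + ca / 8 * d.X + ca / 4 * d.X +
      ca / 4 * d.X := by ring
    have e6 : c₁ * (d.X : ℝ) = ca / 8 * d.X := by rw [hc₁]
    linarith
  -- many digits with positive probability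
  set G : Set d.Om := {ω | 4 * (θ / 8) * d.X ≤ cntJ (J ω) 0 d.X} with hG
  have hPG : θ / 2 ≤ Pr d.P G := by
    have e1 : ∀ ω, d.P ω * (cntJ (J ω) 0 d.X : ℝ) ≤
        (if ω ∈ G then d.P ω else 0) * d.X + d.P ω * (θ / 2 * d.X) := by
      intro ω
      have e2 : (cntJ (J ω) 0 d.X : ℝ) ≤ d.X := by exact_mod_cast cntJ_le _ _ _
      have e3 := hok.law.nonneg ω
      by_cases hω : ω ∈ G
      · rw [if_pos hω]
        have e4 : 0 ≤ d.P ω * (θ / 2 * d.X) := by positivity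
        have e5 := mul_le_mul_of_nonneg_left e2 e3
        linarith
      · rw [if_neg hω, zero_mul, zero_add]
        refine mul_le_mul_of_nonneg_left ?_ e3
        have e4 : (cntJ (J ω) 0 d.X : ℝ) < 4 * (θ / 8) * d.X := not_le.1 hω
        linarith
    have e2 := Finset.sum_le_sum fun ω (_ : ω ∈ univ) => e1 ω
    rw [Finset.sum_add_distrib, ← Finset.sum_mul, ← Finset.sum_mul, hok.law.sum_one, one_mul,
      ← Pool.KAF.Pr_eq] at e2
    have e3 : θ / 2 * d.X ≤ Pr d.P G * d.X := by linarith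
    exact le_of_mul_le_mul_right e3 hXpos
  -- the good block
  set B : ℕ → Set d.Om := fun n => {ω | ∃ j₀ : ℕ, ((j₀ : ℝ) + lam n * d.X) ≤
    (1 - θ / 8 / 4) * d.X ∧ HF (J ω) j₀ ⌊lam n * d.X⌋₊ ⌊ρ * (lam n * d.X)⌋₊ (θ / 8 / 4)} with hB
  have hGB : ∀ ω ∈ G, ∃ n < n₀, ω ∈ B n := by
    intro ω hω
    obtain ⟨n, hn, j₀, hj, hH⟩ := hhfb d.X hX1 (J ω) hω
    refine ⟨n, hn, j₀, hj.trans ?_, hH⟩
    refine mul_le_mul_of_nonneg_right ?_ hXpos.le
    linarith
  by_contra hcon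
  push Not at hcon
  have hBn : ∀ n, n < n₀ → Pr d.P (B n) ≤ θ / 2 / (n₀ + 1) := fun n hn => (hcon n hn).le
  have hsum : Pr d.P G ≤ n₀ * (θ / 2 / (n₀ + 1)) := by
    have hun : ∀ m : ℕ, m ≤ n₀ → Pr d.P {ω | ∃ n < m, ω ∈ B n} ≤ m * (θ / 2 / (n₀ + 1)) := by
      intro m
      induction m with
      | zero =>
        intro _
        refine le_of_eq ?_
        rw [Pool.KAF.Pr_eq]
        simp
      | succ m ih =>
        intro hm
        have g1 : {ω | ∃ n < m + 1, ω ∈ B n} ⊆ {ω | ∃ n < m, ω ∈ B n} ∪ B m := by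
          rintro ω ⟨n, hn, hw⟩
          rcases Nat.lt_succ_iff_lt_or_eq.1 hn with hn' | rfl
          · exact Or.inl ⟨n, hn', hw⟩
          · exact Or.inr hw
        have g2 := (Pr_mono hok.law.nonneg fun ω _ hω => g1 hω).trans
          (Pr_union_le hok.law.nonneg _ _)
        have g3 := ih (by omega)
        have g4 := hBn m (by omega)
        push_cast
        linarith
    exact (Pr_mono hok.law.nonneg fun ω _ hω => hGB ω hω).trans (hun n₀ le_rfl)
  have h5 : (n₀ : ℝ) * (θ / 2 / (n₀ + 1)) < θ / 2 := by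
    rw [mul_div_assoc', div_lt_iff₀ (by positivity)]
    nlinarith
  linarith

end Pool.OCM
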