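import Pool.Agent.H6.OC.J1C
import Pool.Agent.H98.OCM.Stmts

/-!
A set of positive density has a block in which it has positive density in all sub-blocks.
-/

set_option autoImplicit false

namespace Pool.OCM

open Finset

open Classical in
/-- The number of elements of `J` in a block. -/
noncomputable def cntJ (J : Set ℕ) (a l : ℕ) : ℕ := ((Finset.Ico a (a + l)).filter (· ∈ J)).card

theorem cntJ_le (J : Set ℕ) (a l : ℕ) : cntJ J a l ≤ l := by
  classical
  unfold cntJ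
  refine (Finset.card_filter_le _ _).trans ?_
  rw [Nat.card_Ico]
  omega

theorem cntJ_ncard (J : Set ℕ) (a l : ℕ) :
    Set.ncard {j | j ∈ J ∧ a ≤ j ∧ j < a + l} = cntJ J a l := by
  classical
  unfold cntJ
  rw [← Set.ncard_coe_finset]
  congr 1
  ext j
  simp only [Set.mem_ofPred_eq, Finset.coe_filter, Finset.mem_Ico]
  tauto

theorem cntJ_add (J : Set ℕ) (a l l' : ℕ) :
    cntJ J a (l + l') = cntJ J a l + cntJ J (a + l) l' := by
  classical
  unfold cntJ
  rw [← Finset.card_union_of_disjoint]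
  · congr 1
    ext j
    simp only [Finset.mem_filter, Finset.mem_Ico, Finset.mem_union]
    constructor
    · rintro ⟨⟨h1, h2⟩, h3⟩
      by_cases h : j < a + l
      · exact Or.inl ⟨⟨h1, h⟩, h3⟩
      · exact Or.inr ⟨⟨by omega, by omega⟩, h3⟩
    · rintro (⟨⟨h1, h2⟩, h3⟩ | ⟨⟨h1, h2⟩, h3⟩)
      · exact ⟨⟨h1, by omega⟩, h3⟩
      · exact ⟨⟨by omega, by omega⟩, h3⟩
  · rw [Finset.disjoint_left]
    intro j h1 h2
    simp only [Finset.mem_filter, Finset.mem_Ico] at h1 h2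
    omega

theorem cntJ_mul (J : Set ℕ) (a l n : ℕ) :
    cntJ J a (n * l) = ∑ k ∈ range n, cntJ J (a + k * l) l := by
  induction n with
  | zero =>
    rw [Finset.sum_range_zero, zero_mul]
    exact Nat.le_zero.1 (cntJ_le J a 0)
  | succ n ih =>
    rw [Finset.sum_range_succ, ← ih, ← cntJ_add]
    congr 1
    ring

/-- Disjoint blocks inside a block. -/
theorem cntJ_sum_le (J : Set ℕ) (a h l : ℕ) (F : Finset ℕ)
    (hF : ∀ j ∈ F, a ≤ j * l ∧ (j + 1) * l ≤ a + h) :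
    ∑ j ∈ F, cntJ J (j * l) l ≤ cntJ J a h := by
  classical
  unfold cntJ
  rw [← Finset.card_biUnion]
  · refine Finset.card_le_card fun r hr => ?_
    rw [Finset.mem_biUnion] at hr
    obtain ⟨j, hj, hr⟩ := hr
    obtain ⟨a1, a2⟩ := hF j hj
    simp only [Finset.mem_filter, Finset.mem_Ico] at hr ⊢
    have h3 : (j + 1) * l = j * l + l := by ring
    rw [h3] at a2
    exact ⟨⟨by omega, by omega⟩, hr.2⟩
  · intro i _ j _ hij
    show Disjoint _ _
    rw [Finset.disjoint_left]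
    intro r h1 h2
    simp only [Finset.mem_filter, Finset.mem_Ico] at h1 h2
    rcases Nat.lt_or_gt_of_ne hij with hlt | hlt
    · have h3 : (i + 1) * l ≤ j * l := Nat.mul_le_mul_right _ hlt
      have h4 : (i + 1) * l = i * l + l := by ring
      rw [h4] at h3
      omega
    · have h3 : (j + 1) * l ≤ i * l := Nat.mul_le_mul_right _ hlt
      have h4 : (j + 1) * l = j * l + l := by ring
      rw [h4] at h3
      omega

/-- Density increment. -/
theorem hfb_core {J : Set ℕ} {N n₀ b : ℕ} {c' : ℝ} (hN : 1 ≤ N) (hb : 1 ≤ b) (hc : 0 < c')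
    (hg : 1 < c' * (1 + 1 / (2 * N)) ^ n₀)
    (h0 : c' * ((b * N ^ (n₀ + 1) : ℕ) : ℝ) ≤ cntJ J 0 (b * N ^ (n₀ + 1))) :
    ∃ s < n₀, ∃ i : ℕ, (i + 1) * (b * N ^ (n₀ - s)) ≤ b * N ^ (n₀ + 1) ∧ ∀ k < N,
      c' / 2 * ((b * N ^ (n₀ - s - 1) : ℕ) : ℝ) ≤
        cntJ J (i * (b * N ^ (n₀ - s)) + k * (b * N ^ (n₀ - s - 1))) (b * N ^ (n₀ - s - 1)) := by
  classical
  by_contra hcon
  push Not at hcon
  have hN' : (1 : ℝ) ≤ N := by exact_mod_cast hN
  set η : ℝ := 1 / (2 * N) with hη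
  have hη0 : 0 < η := by positivity
  have hpos : ∀ e : ℕ, (0 : ℝ) < ((b * N ^ e : ℕ) : ℝ) := by
    intro e
    have : 0 < b * N ^ e := Nat.mul_pos (by omega) (Nat.pow_pos (by omega))
    exact_mod_cast this
  have key : ∀ s ≤ n₀, ∃ i : ℕ, (i + 1) * (b * N ^ (n₀ - s)) ≤ b * N ^ (n₀ + 1) ∧
      c' * (1 + η) ^ s * ((b * N ^ (n₀ - s) : ℕ) : ℝ) ≤
        cntJ J (i * (b * N ^ (n₀ - s))) (b * N ^ (n₀ - s)) := by
    intro s
    induction s with
    | zero =>
      intro _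
      have h1 : b * N ^ (n₀ + 1) = N * (b * N ^ n₀) := by
        rw [pow_succ]
        ring
      rw [h1, cntJ_mul] at h0
      have h2 : ∃ i ∈ range N, c' * ((b * N ^ n₀ : ℕ) : ℝ) ≤
          cntJ J (0 + i * (b * N ^ n₀)) (b * N ^ n₀) := by
        by_contra hc2
        push Not at hc2
        have h3 := Finset.sum_lt_sum_of_nonempty (s := range N) (by
          rw [nonempty_range_iff]; omega) hc2
        rw [sum_const, card_range, nsmul_eq_mul] at h3
        push_cast at h0 h3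
        linarith
      obtain ⟨i, hi, h3⟩ := h2
      refine ⟨i, ?_, ?_⟩
      · rw [h1, Nat.sub_zero]
        exact Nat.mul_le_mul_right _ (mem_range.1 hi)
      · rw [pow_zero, mul_one, Nat.sub_zero]
        rw [zero_add] at h3
        exact h3
    | succ s ih =>
      intro hs
      obtain ⟨i, hi, h1⟩ := ih (by omega)
      obtain ⟨k₀, hk₀, h2⟩ := hcon s (by omega) i hi
      set l : ℕ := b * N ^ (n₀ - s - 1) with hl
      have hL : b * N ^ (n₀ - s) = N * l := by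
        rw [hl, show n₀ - s = (n₀ - s - 1) + 1 by omega, pow_succ]
        rw [show n₀ - s - 1 + 1 - 1 = n₀ - s - 1 by omega]
        ring
      have hl0 : (0 : ℝ) < l := hpos _
      rw [hL] at h1 h2 hi
      set D : ℝ := c' * (1 + η) ^ s with hD
      have hDc : c' ≤ D := by
        have : (1 : ℝ) ≤ (1 + η) ^ s := one_le_pow₀ (by linarith)
        rw [hD]
        nlinarith
      have hD0 : 0 < D := lt_of_lt_of_le hc hDc
      have h3 : ∃ k ∈ range N, (1 + η) * D * l ≤ cntJ J (i * (N * l) + k * l) l := by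
        by_contra hc2
        push Not at hc2
        rw [cntJ_mul] at h1
        have h4 : ((∑ k ∈ range N, cntJ J (i * (N * l) + k * l) l : ℕ) : ℝ) =
            cntJ J (i * (N * l) + k₀ * l) l +
              ∑ k ∈ (range N).erase k₀, (cntJ J (i * (N * l) + k * l) l : ℝ) := by
          push_cast
          exact (Finset.add_sum_erase (range N) (fun k => (cntJ J (i * (N * l) + k * l) l : ℝ))
            (mem_range.2 hk₀)).symm
        have h5 : ∑ k ∈ (range N).erase k₀, (cntJ J (i * (N * l) + k * l) l : ℝ) ≤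
            ((N : ℝ) - 1) * ((1 + η) * D * l) := by
          calc _ ≤ ∑ _k ∈ (range N).erase k₀, (1 + η) * D * l :=
                Finset.sum_le_sum fun k hk => (hc2 k (Finset.mem_of_mem_erase hk)).le
            _ = _ := by
                rw [sum_const, Finset.card_erase_of_mem (mem_range.2 hk₀), card_range,
                  nsmul_eq_mul, Nat.cast_sub hN, Nat.cast_one]
        rw [h4] at h1
        have h6 : ((N * l : ℕ) : ℝ) = N * l := by push_cast; ring
        rw [h6] at h1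
        have h7 : ((N : ℝ) - 1) * (1 + η) ≤ N - 1 / 2 - η := by
          have : (N : ℝ) * η = 1 / 2 := by
            rw [hη]
            field_simp
          linarith
        have h8 : D * (N * l) < c' / 2 * l + (N - 1 / 2 - η) * (D * l) := by
          have h9 : ((N : ℝ) - 1) * ((1 + η) * D * l) ≤ (N - 1 / 2 - η) * (D * l) := by
            have := mul_le_mul_of_nonneg_right h7 (by positivity : (0 : ℝ) ≤ D * l)
            linarith
          linarith
        have h10 : c' / 2 * (l : ℝ) ≤ D / 2 * l := by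
          have := mul_le_mul_of_nonneg_right hDc hl0.le
          linarith
        have h11 : 0 < η * (D * l) := by positivity
        linarith
      obtain ⟨k, hk, h4⟩ := h3
      refine ⟨i * N + k, ?_, ?_⟩
      · rw [show n₀ - (s + 1) = n₀ - s - 1 by omega]
        rw [mem_range] at hk
        calc (i * N + k + 1) * l ≤ (i * N + N) * l := Nat.mul_le_mul_right _ (by omega)
          _ = (i + 1) * (N * l) := by ring
          _ ≤ _ := hi
      · rw [show n₀ - (s + 1) = n₀ - s - 1 by omega, pow_succ]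
        have h5 : (i * N + k) * l = i * (N * l) + k * l := by ring
        rw [h5]
        refine le_trans (le_of_eq ?_) h4
        rw [hD]
        ring
  obtain ⟨i, _, h1⟩ := key n₀ le_rfl
  rw [Nat.sub_self, pow_zero, mul_one] at h1
  have h2 : (cntJ J (i * b) b : ℝ) ≤ b := by exact_mod_cast cntJ_le J _ _
  have hb' : (0 : ℝ) < b := by exact_mod_cast (by omega : 0 < b)
  have h3 : c' * (1 + η) ^ n₀ ≤ 1 := by
    have : c' * (1 + η) ^ n₀ * b ≤ 1 * b := by linarith
    exact le_of_mul_le_mul_right this hb'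
  linarith

/-- Blocks which are long with respect to the small blocks. -/
theorem hf_of_sub {J : Set ℕ} {N l i₀ h len : ℕ} {c' : ℝ} (hc : 0 < c') (hl0 : 0 < l)
    (h4l : 4 * (l : ℝ) ≤ h) (hlen : len ≤ N * l)
    (hsub : ∀ k < N, c' / 2 * (l : ℝ) ≤ cntJ J (i₀ * (N * l) + k * l) l) :
    HF J (i₀ * (N * l)) len h (c' / 4) := by
  intro i hi1 hi2
  rw [cntJ_ncard]
  obtain ⟨b1, b2⟩ := Pool.OC.block_inside i h l hl0
  set F : Finset ℕ := Finset.Ico ((i + l - 1) / l) ((i + h) / l) with hF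
  have h5 := cntJ_sum_le J i h l F b2
  have h6 : ∀ j ∈ F, c' / 2 * (l : ℝ) ≤ cntJ J (j * l) l := by
    intro j hj
    obtain ⟨d1, d2⟩ := b2 j hj
    have g1 : i₀ * N * l ≤ j * l := by
      have : i₀ * N * l = i₀ * (N * l) := by ring
      rw [this]
      exact hi1.trans d1
    have g2 : (j + 1) * l ≤ (i₀ * N + N) * l := by
      have : (i₀ * N + N) * l = i₀ * (N * l) + N * l := by ring
      rw [this]
      exact d2.trans (hi2.trans (Nat.add_le_add_left hlen _))
    have g3 := Nat.le_of_mul_le_mul_right g1 hl0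
    have g4 := Nat.le_of_mul_le_mul_right g2 hl0
    have g5 := hsub (j - i₀ * N) (by omega)
    have g6 : i₀ * (N * l) + (j - i₀ * N) * l = j * l := by
      have h7 : j = i₀ * N + (j - i₀ * N) := by omega
      calc i₀ * (N * l) + (j - i₀ * N) * l = (i₀ * N + (j - i₀ * N)) * l := by ring
        _ = j * l := by rw [← h7]
    rw [g6] at g5
    exact g5
  have h7 : (F.card : ℝ) * (c' / 2 * l) ≤ cntJ J i h := by
    calc (F.card : ℝ) * (c' / 2 * l) = ∑ _j ∈ F, c' / 2 * (l : ℝ) := by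
          rw [sum_const, nsmul_eq_mul]
      _ ≤ ∑ j ∈ F, (cntJ J (j * l) l : ℝ) := Finset.sum_le_sum h6
      _ ≤ _ := by exact_mod_cast h5
  have h8 : c' / 2 * ((h : ℝ) - 2 * l) ≤ c' / 2 * (l * F.card) :=
    mul_le_mul_of_nonneg_left b1 (by positivity)
  have h9 : c' / 4 * (h : ℝ) ≤ c' / 2 * ((h : ℝ) - 2 * l) := by
    have := mul_le_mul_of_nonneg_left h4l hc.le
    linarith
  linarith

set_option maxHeartbeats 1000000 in
/-- **A block without holes.** -/
theorem hfb (c' ρ : ℝ) (hc : 0 < c') (hc1 : c' ≤ 1 / 4) (hρ : 0 < ρ) (_hρ1 : ρ ≤ 1) :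
    ∃ (n₀ : ℕ) (lam : ℕ → ℝ) (X₀ : ℕ), (∀ n < n₀, 0 < lam n ∧ lam n ≤ ρ) ∧
      ∀ X : ℕ, X₀ ≤ X → ∀ J : Set ℕ, 4 * c' * X ≤ cntJ J 0 X → ∃ n < n₀, ∃ j₀ : ℕ,
        ((j₀ : ℝ) + lam n * X) ≤ (1 - c') * X ∧
        HF J j₀ ⌊lam n * X⌋₊ ⌊ρ * (lam n * X)⌋₊ (c' / 4) := by
  classical
  obtain ⟨N, hN⟩ := exists_nat_ge (32 / ρ)
  have hN0 : (0 : ℝ) < N := lt_of_lt_of_le (by positivity) hN
  have hN1 : 1 ≤ N := by exact_mod_cast hN0
  have hN1' : (1 : ℝ) ≤ N := by exact_mod_cast hN1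
  have hNρ : 32 ≤ ρ * N := by
    rw [div_le_iff₀ hρ] at hN
    linarith
  obtain ⟨n₀, hn₀⟩ : ∃ n₀ : ℕ, 1 / c' < (1 + 1 / (2 * N : ℝ)) ^ n₀ :=
    pow_unbounded_of_one_lt _ (by
      have : (0 : ℝ) < 1 / (2 * N) := by positivity
      linarith)
  have hg : 1 < c' * (1 + 1 / (2 * N : ℝ)) ^ n₀ := by
    rw [div_lt_iff₀ hc] at hn₀
    linarith
  set lam : ℕ → ℝ := fun n => 1 / (4 * (N : ℝ) ^ (n + 1)) with hlam
  obtain ⟨X₀, hX₀⟩ := exists_nat_ge ((1 + (N : ℝ) ^ (n₀ + 1)) / c' + 8 * (N : ℝ) ^ (n₀ + 1) / ρ +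
    4 * (1 + (N : ℝ) ^ (n₀ + 1)))
  refine ⟨n₀, lam, X₀, ?_, ?_⟩
  · intro n _
    refine ⟨by rw [hlam]; positivity, ?_⟩
    have h1 : (N : ℝ) ≤ (N : ℝ) ^ (n + 1) := by
      calc (N : ℝ) = (N : ℝ) ^ 1 := (pow_one _).symm
        _ ≤ _ := pow_le_pow_right₀ hN1' (by omega)
    have h2 : 1 / (4 * (N : ℝ) ^ (n + 1)) ≤ 1 / (4 * N) :=
      one_div_le_one_div_of_le (by positivity) (by linarith)
    have h3 : 1 / (4 * (N : ℝ)) ≤ ρ := by
      rw [div_le_iff₀ (by positivity)]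
      linarith
    exact h2.trans h3
  intro X hX J hJ
  have hXr : (1 + (N : ℝ) ^ (n₀ + 1)) / c' + 8 * (N : ℝ) ^ (n₀ + 1) / ρ +
    4 * (1 + (N : ℝ) ^ (n₀ + 1)) ≤ X := hX₀.trans (by exact_mod_cast hX)
  have p1 : 0 < (1 + (N : ℝ) ^ (n₀ + 1)) / c' := by positivity
  have p2 : 0 < 8 * (N : ℝ) ^ (n₀ + 1) / ρ := by positivity
  have p3 : 0 < 4 * (1 + (N : ℝ) ^ (n₀ + 1)) := by positivity
  have q1 : 1 + (N : ℝ) ^ (n₀ + 1) ≤ c' * X := by
    have : (1 + (N : ℝ) ^ (n₀ + 1)) / c' ≤ X := by linarith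
    rw [div_le_iff₀ hc] at this
    linarith
  have q2 : 8 * (N : ℝ) ^ (n₀ + 1) ≤ ρ * X := by
    have : 8 * (N : ℝ) ^ (n₀ + 1) / ρ ≤ X := by linarith
    rw [div_le_iff₀ hρ] at this
    linarith
  have q3 : 4 * (1 + (N : ℝ) ^ (n₀ + 1)) ≤ X := by linarith
  have hX0 : (0 : ℝ) < X := by linarith
  set X' : ℕ := ⌊(1 - c') * X⌋₊ with hX'
  have hX'1 : (X' : ℝ) ≤ (1 - c') * X := Nat.floor_le (by nlinarith)
  have hX'2 : (1 - c') * X < X' + 1 := Nat.lt_floor_add_one _
  set Q : ℕ := N ^ (n₀ + 1) with hQ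
  have hQ0 : 0 < Q := Nat.pow_pos (by omega)
  have hQr : ((Q : ℕ) : ℝ) = (N : ℝ) ^ (n₀ + 1) := by rw [hQ]; push_cast; ring
  set b : ℕ := X' / Q with hb
  have hb1 : b * Q ≤ X' := Nat.div_mul_le_self _ _
  have hb2 : X' < b * Q + Q := by
    have := Nat.lt_div_mul_add (a := X') hQ0
    exact this
  have hb1' : (b : ℝ) * Q ≤ X' := by exact_mod_cast hb1
  have hb2' : (X' : ℝ) < b * Q + Q := by exact_mod_cast hb2
  have hL0 : (X : ℝ) / 4 ≤ b * Q := by
    rw [← hQr] at q3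
    have : (3 / 4 : ℝ) * X ≤ (1 - c') * X := by nlinarith
    linarith
  have hb0 : 1 ≤ b := by
    by_contra hcon
    have h1 : b = 0 := Nat.lt_one_iff.1 (not_le.1 hcon)
    rw [h1] at hL0
    simp only [Nat.cast_zero, zero_mul] at hL0
    linarith
  have hXX : b * Q ≤ X := by
    have : (b * Q : ℝ) ≤ X := by nlinarith
    exact_mod_cast this
  -- the density in the first part
  have hdens : c' * ((b * Q : ℕ) : ℝ) ≤ cntJ J 0 (b * Q) := by
    have h1 := cntJ_add J 0 (b * Q) (X - b * Q)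
    rw [Nat.add_sub_cancel' hXX] at h1
    have h2 : (cntJ J (0 + b * Q) (X - b * Q) : ℝ) ≤ X - b * Q := by
      have h3 := cntJ_le J (0 + b * Q) (X - b * Q)
      have h4 : (cntJ J (0 + b * Q) (X - b * Q) : ℝ) ≤ ((X - b * Q : ℕ) : ℝ) := by exact_mod_cast h3
      rw [Nat.cast_sub hXX] at h4
      push_cast at h4
      exact h4
    have h3 : (cntJ J 0 X : ℝ) = cntJ J 0 (b * Q) + cntJ J (0 + b * Q) (X - b * Q) := by
      exact_mod_cast h1
    push_cast
    rw [← hQr] at q1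
    have h4 : (b : ℝ) * Q ≤ X := by exact_mod_cast hXX
    nlinarith
  obtain ⟨s, hs, i₀, hi₀, hsub⟩ := hfb_core (J := J) (N := N) (n₀ := n₀) (b := b) hN1 hb0 hc hg
    hdens
  clear_value b
  set L : ℕ := b * N ^ (n₀ - s) with hL
  set l : ℕ := b * N ^ (n₀ - s - 1) with hl
  have hLl : L = N * l := by
    rw [hL, hl]
    have : n₀ - s = (n₀ - s - 1) + 1 := by omega
    rw [this, pow_succ, show n₀ - s - 1 + 1 - 1 = n₀ - s - 1 by omega]
    ring
  have hl0 : 0 < l := Nat.mul_pos (by omega) (Nat.pow_pos (by omega))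
  have hLQ : b * Q = L * N ^ (s + 1) := by
    rw [hL, hQ, mul_assoc, ← pow_add]
    congr 2
    omega
  have hLQ' : (b : ℝ) * Q = L * (N : ℝ) ^ (s + 1) := by exact_mod_cast hLQ
  have hlQ : (b : ℝ) * Q = l * N * (N : ℝ) ^ (s + 1) := by
    rw [hLQ', hLl]
    push_cast
    ring
  rw [← hQ] at hi₀
  clear_value l L Q
  have hNs : (0 : ℝ) < (N : ℝ) ^ (s + 1) := by positivity
  have hlamX : lam s * X ≤ L := by
    have h1 : lam s * X = (X / 4) / (N : ℝ) ^ (s + 1) := by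
      rw [hlam]
      field_simp
    rw [h1, div_le_iff₀ hNs, ← hLQ']
    exact hL0
  have hlam0 : 0 ≤ lam s * X := by
    rw [hlam]
    positivity
  refine ⟨s, hs, i₀ * L, ?_, ?_⟩
  · have h1 : ((i₀ + 1) * L : ℕ) ≤ b * Q := hi₀
    have h2 : ((i₀ : ℝ) + 1) * L ≤ b * Q := by exact_mod_cast h1
    push_cast
    linarith
  · intro i hi1 hi2
    rw [cntJ_ncard]
    set h : ℕ := ⌊ρ * (lam s * X)⌋₊ with hh
    have hh1 : (h : ℝ) ≤ ρ * (lam s * X) := Nat.floor_le (by positivity)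
    have hh2 : ρ * (lam s * X) < h + 1 := Nat.lt_floor_add_one _
    have hfl : ⌊lam s * X⌋₊ ≤ L := by
      have : (⌊lam s * X⌋₊ : ℝ) ≤ L := (Nat.floor_le hlam0).trans hlamX
      exact_mod_cast this
    -- the small blocks are short
    have h4l : 4 * (l : ℝ) ≤ h := by
      have e1 : (l : ℝ) * N * (N : ℝ) ^ (s + 1) ≤ X := by
        rw [← hlQ]
        exact_mod_cast hXX
      have e2 : ρ * (lam s * X) = ρ * X / (4 * (N : ℝ) ^ (s + 1)) := by
        rw [hlam]
        field_simp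
      have e3 : 4 * (l : ℝ) ≤ ρ * X / (8 * (N : ℝ) ^ (s + 1)) := by
        rw [le_div_iff₀ (by positivity)]
        have e4 : 32 * ((l : ℝ) * (N : ℝ) ^ (s + 1)) ≤ ρ * N * (l * (N : ℝ) ^ (s + 1)) :=
          mul_le_mul_of_nonneg_right hNρ (by positivity)
        have e5 : ρ * (l * N * (N : ℝ) ^ (s + 1)) ≤ ρ * X := mul_le_mul_of_nonneg_left e1 hρ.le
        linarith
      have e4 : (1 : ℝ) ≤ ρ * X / (8 * (N : ℝ) ^ (s + 1)) := by
        rw [le_div_iff₀ (by positivity), one_mul]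
        have : (N : ℝ) ^ (s + 1) ≤ (N : ℝ) ^ (n₀ + 1) := pow_le_pow_right₀ hN1' (by omega)
        linarith
      have e5 : ρ * X / (4 * (N : ℝ) ^ (s + 1)) = ρ * X / (8 * (N : ℝ) ^ (s + 1)) +
        ρ * X / (8 * (N : ℝ) ^ (s + 1)) := by
        field_simp
        ring
      rw [e2, e5] at hh2
      linarith
    rw [← cntJ_ncard]
    have h5 := hf_of_sub (J := J) (N := N) (l := l) (i₀ := i₀) (h := h) (len := ⌊lam s * X⌋₊) hc hl0
      h4l (by rw [← hLl]; exact hfl) (by rw [← hLl]; exact hsub)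
    rw [← hLl] at h5
    exact h5 i hi1 hi2

end Pool.OCM
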