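import Pool.Agent.H6.OCM.NFV
import Pool.Agent.H98.OCM.Stmts

/-!
Theorem OC in codimension `c`, row NFV.
-/

set_option autoImplicit false

namespace Pool.OCM

open Finset Real
open Pool.Agent.H49.Ent Pool.Agent.H32.Dense Pool.STK Pool.KAF Pool.OC

/-- The entropy of consecutive blocks. -/
theorem CH_blocks {Ω θ : Type} [Fintype Ω] {c : ℕ} {q : Ω → ℝ} (hq : ∀ ω, 0 ≤ q ω)
    (N : Ω → Fin c → ℤ) (T : Ω → θ) (h : ℕ) (A : ℝ) (a : ℕ) (m : ℕ)
    (hA : ∀ i < m, CH q (rc N (a + i * h)) (fun ω => (rc N (a + i * h + h) ω, T ω)) ≤ A) :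
    CH q (rc N a) (fun ω => (rc N (a + m * h) ω, T ω)) ≤ m * A := by
  have key : ∀ κ κ' : ℕ, κ ≤ κ' → CH q (rc N κ) (fun ω => (rc N κ' ω, T ω)) =
      CH q (rc N κ) T - CH q (rc N κ') T := by
    intro κ κ' h
    have h1 := CH_chain hq (rc N κ) (rc N κ') T
    have h2 : CH q (fun ω => (rc N κ ω, rc N κ' ω)) T = CH q (rc N κ) T := by
      refine CH_congr hq ?_ ?_ (fun _ _ _ _ h => h) (fun _ _ _ _ h => h)
      · intro ω ω' _ _ hw
        simp only [Prod.mk.injEq] at hw
        exact hw.1.1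
      · intro ω ω' h1 h2 hw
        simp only [Prod.mk.injEq] at hw ⊢
        exact ⟨hw.1, det_rc q N h ω ω' h1 h2 hw.1⟩
    linarith
  rw [key a (a + m * h) (by omega)]
  induction m with
  | zero => simp
  | succ m ih =>
    have h1 := ih fun i hi => hA i (by omega)
    have h2 := hA m (by omega)
    rw [key (a + m * h) (a + m * h + h) (by omega)] at h2
    have h3 : a + (m + 1) * h = a + m * h + h := by ring
    rw [h3]
    push_cast
    linarith

theorem wtz_mono {Ω θ : Type} [Fintype Ω] {c : ℕ} (p : Ω → ℝ) (N : Ω → Fin c → ℤ) (τ : Ω → θ)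
    (X κ K : ℕ) {D D' : ℝ} (h : D ≤ D') (ω : Ω) : wtz p N τ X κ K D' ω ≤ wtz p N τ X κ K D ω := by
  classical
  unfold wtz
  refine div_le_div_of_nonneg_right (Finset.sum_le_sum fun u _ => ?_) (by positivity)
  by_cases h1 : low p (sh N u) τ κ K D' ω
  · have h2 : low p (sh N u) τ κ K D ω := by
      unfold low at h1 ⊢
      linarith
    rw [if_pos h1, if_pos h2]
  · rw [if_neg h1]
    split_ifs <;> norm_num

/-- The union of finitely many events. -/
theorem Pr_exists_le {Ω : Type} [Fintype Ω] {p : Ω → ℝ} (hp : ∀ ω, 0 ≤ p ω) (M : ℕ) (C : ℕ → Prop)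
    (B : ℕ → Set Ω) {η : ℝ} (hC : ∀ j, C j → j < M) (hη : 0 ≤ η)
    (hB : ∀ j, C j → Pr p (B j) ≤ η) : Pr p {ω | ∃ j, C j ∧ ω ∈ B j} ≤ M * η := by
  classical
  have hun : ∀ n : ℕ, Pr p {ω | ∃ j < n, C j ∧ ω ∈ B j} ≤ n * η := by
    intro n
    induction n with
    | zero =>
      refine le_of_eq ?_
      rw [Pool.KAF.Pr_eq]
      simp
    | succ n ih =>
      have g1 : {ω | ∃ j < n + 1, C j ∧ ω ∈ B j} ⊆
          {ω | ∃ j < n, C j ∧ ω ∈ B j} ∪ {ω | C n ∧ ω ∈ B n} := by
        rintro ω ⟨j, hj, hjC, hw⟩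
        rcases Nat.lt_succ_iff_lt_or_eq.1 hj with hj' | rfl
        · exact Or.inl ⟨j, hj', hjC, hw⟩
        · exact Or.inr ⟨hjC, hw⟩
      have g2 := (Pr_mono hp fun ω _ hω => g1 hω).trans (Pr_union_le hp _ _)
      have g3 : Pr p {ω | C n ∧ ω ∈ B n} ≤ η := by
        by_cases hn : C n
        · exact le_trans (Pr_mono hp fun ω _ hω => hω.2) (hB n hn)
        · refine le_trans (le_of_eq ?_) hη
          rw [Pool.KAF.Pr_eq]
          exact Finset.sum_eq_zero fun ω _ => if_neg fun hω => hn hω.1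
      push_cast
      linarith
  refine (Pr_mono hp fun ω _ hω => ?_).trans (hun M)
  obtain ⟨j, hj, hw⟩ := hω
  exact ⟨j, hC j hj, hj, hw⟩

/-- **Row NFV.** -/
theorem nfv_thm (c : ℕ) : NFVStmt c := by
  classical
  intro c₀ hc₀
  set u : ℝ := min 1 (c₀ / (16 * ((c : ℝ) + 1))) with hu
  have hu0 : 0 < u := lt_min one_pos (by positivity)
  refine ⟨u, hu0, min_le_left _ _, fun D => ?_⟩
  have hl2 : 0 < Real.log 2 := Real.log_pos (by norm_num)
  set D' : ℝ := max D 0 with hD'
  have hD'0 : 0 ≤ D' := le_max_right _ _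
  obtain ⟨K, hK⟩ := exists_nat_ge (16 * (D' + Real.log 2) / (c₀ * Real.log 2))
  rw [div_le_iff₀ (by positivity)] at hK
  refine ⟨K, fun A k m κ π₁ hm hκ hκ1 hπ => ?_⟩
  rcases Nat.eq_zero_or_pos c with hc | hc
  · -- dimension zero
    subst hc
    refine ⟨1, ⌈1 / κ⌉₊, one_pos, ?_⟩
    intro d kmax hok hX _ h5
    exfalso
    have hX1 : 1 / κ ≤ d.X := (Nat.le_ceil _).trans (by exact_mod_cast hX)
    rw [div_le_iff₀ hκ] at hX1
    have hh : 1 ≤ ⌊κ * (d.X : ℝ)⌋₊ := by
      rw [Nat.one_le_floor_iff]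
      linarith
    have hh2 : ⌊κ * (d.X : ℝ)⌋₊ ≤ d.X := by
      have : κ * (d.X : ℝ) ≤ d.X := by
        have : (0 : ℝ) ≤ d.X := Nat.cast_nonneg _
        nlinarith
      calc _ ≤ ⌊(d.X : ℝ)⌋₊ := Nat.floor_mono this
        _ = d.X := Nat.floor_natCast _
    have h6 := h5 0 (by rw [zero_add, one_mul]; exact hh2) Set.univ (by
      rw [Pool.KAF.Pr_eq]
      simp only [Set.mem_univ, if_true, hok.law.sum_one, le_refl])
    have h7 := CH_nonneg (fun ω => cond_nonneg hok.law.nonneg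
      (fun ω => ω ∈ (Set.univ : Set d.Om)) True ω)
      (d.row ((0 + 1) * ⌊κ * (d.X : ℝ)⌋₊)) (fun ω => (d.row (0 * ⌊κ * (d.X : ℝ)⌋₊) ω, d.T ω))
    have h8 : (0 : ℝ) < ⌊κ * (d.X : ℝ)⌋₊ := by exact_mod_cast hh
    have h9 : 0 < c₀ * ⌊κ * (d.X : ℝ)⌋₊ * Real.log 2 := by positivity
    push_cast at h6
    linarith
  have hcr : (0 : ℝ) < c := by exact_mod_cast hc
  set Mb : ℕ := ⌈2 / κ⌉₊ + 1 with hMb
  have hMb0 : (0 : ℝ) < Mb := by rw [hMb]; positivity
  obtain ⟨π₀, h₀, hπ₀, hKh, hblk⟩ := nfv_block c hc c₀ (π₁ / Mb) D' hc₀ (by positivity) hD'0 K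
    (by linarith)
  refine ⟨π₀, ⌈(h₀ + ⌈(k + 2) * (16 * c) / c₀⌉₊ + 2) / κ⌉₊, hπ₀, ?_⟩
  intro d kmax hok hX hkm h5 Ω ξ₁ _ Q w₁ x₁ M hQ hQw hdet hM
  set X : ℕ := d.X with hXd
  set h : ℕ := ⌊κ * (X : ℝ)⌋₊ with hh
  have hXr : ((h₀ : ℝ) + ⌈(k + 2) * (16 * c) / c₀⌉₊ + 2) / κ ≤ X :=
    (Nat.le_ceil _).trans (by exact_mod_cast hX)
  rw [div_le_iff₀ hκ] at hXr
  have hκX : κ * X < h + 1 := Nat.lt_floor_add_one _
  have hh1 : (h : ℝ) ≤ κ * X := Nat.floor_le (by positivity)
  have hhh : (h₀ : ℝ) + ⌈(k + 2) * (16 * c) / c₀⌉₊ + 1 < h := by linarith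
  have hk0 : (0 : ℝ) ≤ (⌈(k + 2) * (16 * c) / c₀⌉₊ : ℝ) := Nat.cast_nonneg _
  have hh00 : (0 : ℝ) ≤ h₀ := Nat.cast_nonneg _
  have hh0 : h₀ ≤ h := by
    have : (h₀ : ℝ) < h := by linarith
    exact_mod_cast this.le
  have hh2 : (1 : ℝ) ≤ h := by linarith
  set H' : ℕ := m * h with hH'
  have hhH : h ≤ H' := Nat.le_mul_of_pos_left _ (by omega)
  have hhH' : (h : ℝ) ≤ H' := by exact_mod_cast hhH
  have hkh : (k : ℝ) + 2 ≤ c₀ / (16 * c) * H' := by
    have h1 : ((k : ℝ) + 2) * (16 * c) / c₀ ≤ H' := by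
      have h2 := Nat.le_ceil (((k : ℝ) + 2) * (16 * c) / c₀)
      linarith
    rw [div_le_iff₀ hc₀] at h1
    rw [div_mul_eq_mul_div, le_div_iff₀ (by positivity)]
    linarith
  have hu1 : u ≤ c₀ / (16 * c) := by
    refine (min_le_right _ _).trans ?_
    exact div_le_div_of_nonneg_left hc₀.le (by positivity) (by linarith)
  have hkmax : 16 * (c : ℝ) * kmax ≤ c₀ * H' := by
    have h1 : (kmax : ℝ) ≤ c₀ / (16 * c) * H' :=
      hkm.trans (mul_le_mul_of_nonneg_right hu1 (Nat.cast_nonneg _))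
    rw [div_mul_eq_mul_div, le_div_iff₀ (by positivity)] at h1
    linarith
  -- the single blocks
  have hone : ∀ j : ℕ, (j + 2) * H' ≤ X →
      Pr Q {v | ∑ r ∈ Finset.Ico (j * H') ((j + 1) * H'),
        wtz Q (fun v => nz (M (x₁ v)) (d.N (w₁ v))) x₁ X (X + k + 1 - r) K D v < u * H'} ≤
        π₁ / Mb := by
    intro j hj
    have hj1 : (j + 1) * H' ≤ X := le_trans (Nat.mul_le_mul_right _ (by omega)) hj
    have hja : (j + 1) * H' = j * H' + H' := by ring
    set a : ℕ := X - (j + 1) * H' with ha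
    have hah : a + H' = X - j * H' := by omega
    have hb := hblk H' (hh0.trans hhH) kmax hkmax Ω d.Om ξ₁ d.Tau Q w₁ d.P d.N d.T x₁ M X a hQ hQw
      hdet (fun v _ => hM _) (by
        intro E hE
        have h6 := CH_blocks (q := Pool.Agent.H49.Ent.cond d.P (fun ω => ω ∈ E) True)
          (fun ω => cond_nonneg hok.law.nonneg _ _ ω) d.N d.T h
          (((c : ℝ) - c₀) * h * Real.log 2) a m (by
            intro i hi
            -- the block with index `j * m + (m - 1 - i)`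
            have e1 : (j * m + (m - 1 - i) + 1) * h ≤ X := by
              have e2 : (j * m + (m - 1 - i) + 1) ≤ (j + 1) * m := by
                have : (j + 1) * m = j * m + m := by ring
                omega
              calc _ ≤ (j + 1) * m * h := Nat.mul_le_mul_right _ e2
                _ = (j + 1) * H' := by rw [hH', mul_assoc]
                _ ≤ X := hj1
            have h7 := h5 (j * m + (m - 1 - i)) e1 E hE
            have e3 : (j * m + (m - 1 - i) + 1) * h + i * h = (j + 1) * H' := by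
              rw [← add_mul]
              have : j * m + (m - 1 - i) + 1 + i = (j + 1) * m := by
                have : (j + 1) * m = j * m + m := by ring
                omega
              rw [this, hH', mul_assoc]
            have e4 : (j * m + (m - 1 - i)) * h + h = (j * m + (m - 1 - i) + 1) * h := by ring
            have e5 : X - (j * m + (m - 1 - i) + 1) * h = a + i * h := by omega
            have e6 : X - (j * m + (m - 1 - i)) * h = a + i * h + h := by omega
            have f1 : d.row ((j * m + (m - 1 - i) + 1) * h) = rc d.N (a + i * h) := by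
              funext ω i'
              unfold DatV.row rc
              rw [← hXd, e5]
              push_cast
              rfl
            have f2 : d.row ((j * m + (m - 1 - i)) * h) = rc d.N (a + i * h + h) := by
              funext ω i'
              unfold DatV.row rc
              rw [← hXd, e6]
              push_cast
              rfl
            rw [f1, f2] at h7
            exact h7)
        refine h6.trans (le_of_eq ?_)
        rw [hH']
        push_cast
        ring)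
    refine le_trans (Pr_mono hQ.nonneg ?_) hb.le
    intro ω _ hω
    simp only [Set.mem_ofPred_eq] at hω ⊢
    set wt : ℕ → ℝ := fun lev =>
      wtz Q (fun v => nz (M (x₁ v)) (d.N (w₁ v))) x₁ X lev K D' ω with hwt
    have hwt0 : ∀ l, 0 ≤ wt l := fun l => wtz_nonneg ..
    have hwt1 : ∀ l, wt l ≤ 1 := fun l => wtz_le_one ..
    have e0 : ∑ r ∈ Finset.Ico (j * H') ((j + 1) * H'), wt (X + k + 1 - r) < u * H' := by
      refine lt_of_le_of_lt (Finset.sum_le_sum fun r _ => ?_) hω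
      exact wtz_mono _ _ _ _ _ _ (le_max_left D 0) _
    have e1 : ∑ r ∈ Finset.Ico (j * H') ((j + 1) * H'), wt (X + k + 1 - r) =
        ∑ i ∈ range H', wt (a + (k + 2 + i)) := by
      rw [Finset.sum_Ico_eq_sum_range, ← Finset.sum_range_reflect]
      rw [show (j + 1) * H' - j * H' = H' by omega]
      refine Finset.sum_congr rfl fun i hi => ?_
      rw [mem_range] at hi
      rw [show X + k + 1 - (j * H' + (H' - 1 - i)) = a + (k + 2 + i) by omega]
    have e2 : ∑ i ∈ range (H' - K), wt (a + i) ≤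
        ∑ i ∈ range H', wt (a + (k + 2 + i)) + (k + 2) := by
      have f1 : ∑ i ∈ range (H' - K), wt (a + i) ≤ ∑ i ∈ range (k + 2 + H'), wt (a + i) :=
        Finset.sum_le_sum_of_subset_of_nonneg
          (fun i hi => by rw [mem_range] at hi ⊢; omega) (fun i _ _ => hwt0 _)
      rw [Finset.sum_range_add] at f1
      have f2 : ∑ i ∈ range (k + 2), wt (a + i) ≤ k + 2 := by
        calc _ ≤ ∑ _i ∈ range (k + 2), (1 : ℝ) := Finset.sum_le_sum fun i _ => hwt1 _
          _ = k + 2 := by rw [sum_const, card_range, nsmul_eq_mul, mul_one]; push_cast; ring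
      linarith
    have e3 : u * (H' : ℝ) ≤ c₀ / (16 * c) * H' :=
      mul_le_mul_of_nonneg_right hu1 (Nat.cast_nonneg _)
    have e4 : c₀ / (8 * c) * (H' : ℝ) = c₀ / (16 * c) * H' + c₀ / (16 * c) * H' := by
      field_simp
      ring
    rw [e4]
    linarith
  -- the union
  refine (Pr_exists_le hQ.nonneg Mb (fun j => (j + 2) * H' ≤ X) _ ?_ (by positivity) hone).trans
    (le_of_eq (by field_simp))
  intro j hj
  have h1 : ((j : ℝ) + 2) * H' ≤ X := by exact_mod_cast hj
  have h2 : κ * X ≤ 2 * H' := by linarith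
  have h3 : ((j : ℝ) + 2) * H' * κ ≤ 2 * H' := by
    calc _ ≤ (X : ℝ) * κ := mul_le_mul_of_nonneg_right h1 hκ.le
      _ = κ * X := by ring
      _ ≤ _ := h2
  have h4 : ((j : ℝ) + 2) * κ ≤ 2 := by
    have : ((j : ℝ) + 2) * κ * H' ≤ 2 * H' := by linarith
    exact le_of_mul_le_mul_right this (by linarith)
  have h5 : (j : ℝ) + 2 ≤ 2 / κ := by rwa [le_div_iff₀ hκ]
  have h6 := Nat.le_ceil (2 / κ)
  have : (j : ℝ) < Mb := by rw [hMb]; push_cast; linarith
  exact_mod_cast this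

end Pool.OCM
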