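import Pool.Agent.H6.OCM.NFVd
import Pool.Agent.H66.OCM.Full
import Pool.Agent.H97.OC.Sel

/-!
Theorem OC in codimension `c`: the nonfull rows from the mean entropy of one block.
-/

set_option autoImplicit false

namespace Pool.OCM

open Finset Real
open Pool.Agent.H49.Ent Pool.Agent.H32.Dense Pool.STK Pool.KAF Pool.OC

section

variable {Ω Om S T : Type} [Fintype Ω] [Fintype Om]

/-- The samples with small information. -/
def Dfn (P : Om → ℝ) (Y : Om → S) (Z : Om → T) (B : ℝ) : Set Om :=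
  {ω | Pool.K2S.Sel.ifo P Y Z ω ≤ B}

theorem ifo_nonneg {P : Om → ℝ} (hP : ∀ ω, 0 ≤ P ω) (Y : Om → S) (Z : Om → T) {ω : Om}
    (hω : 0 < P ω) : 0 ≤ Pool.K2S.Sel.ifo P Y Z ω := by
  unfold Pool.K2S.Sel.ifo
  rw [sub_nonneg]
  exact Real.log_le_log (law_pos hP (fun ω => (Y ω, Z ω)) hω) (law_pair_le' hP Y Z _ _)

/-- The samples with small information have positive probability. -/
theorem Pr_Dfn {P : Om → ℝ} (hP : IsLaw P) (Y : Om → S) (Z : Om → T) {A B : ℝ} (hB : 0 < B)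
    (hA : CH P Y Z ≤ A) : 1 - A / B ≤ Pr P (Dfn P Y Z B) := by
  classical
  have h1 : B * Pr P (Dfn P Y Z B)ᶜ ≤ A := by
    refine le_trans ?_ hA
    rw [← Pool.K2S.Sel.sum_ifo P Y Z, Pool.KAF.Pr_eq, Finset.mul_sum]
    refine Finset.sum_le_sum fun ω _ => ?_
    rcases (hP.nonneg ω).eq_or_lt with h0 | h0
    · rw [← h0]
      simp
    · by_cases h : ω ∈ (Dfn P Y Z B)ᶜ
      · rw [if_pos h, mul_comm]
        have : B < Pool.K2S.Sel.ifo P Y Z ω := not_le.1 h
        exact mul_le_mul_of_nonneg_left this.le h0.le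
      · rw [if_neg h, mul_zero]
        exact mul_nonneg h0.le (ifo_nonneg hP.nonneg Y Z h0)
  have h2 : Pr P (Dfn P Y Z B) + Pr P (Dfn P Y Z B)ᶜ = 1 := by
    rw [Pool.KAF.Pr_eq, Pool.KAF.Pr_eq, ← Finset.sum_add_distrib, ← hP.sum_one]
    refine Finset.sum_congr rfl fun ω _ => ?_
    by_cases h : ω ∈ Dfn P Y Z B
    · rw [if_pos h, if_neg (fun h' => h' h), add_zero]
    · rw [if_neg h, if_pos (show ω ∈ (Dfn P Y Z B)ᶜ from h), zero_add]
  have h3 : Pr P (Dfn P Y Z B)ᶜ ≤ A / B := by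
    rw [le_div_iff₀ hB]
    linarith
  linarith

/-- The entropy on an event of a larger space over the samples with small information. -/
theorem CH_event_Dfn {R : Ω → ℝ} (hR : IsLaw R) {w : Ω → Om} {P : Om → ℝ}
    (hRP : ∀ ω, law R w ω = P ω) (Y : Om → S) (Z : Om → T) {B : ℝ} (E : Set Ω) (hE : 0 < Pr R E)
    (hED : ∀ v ∈ E, w v ∈ Dfn P Y Z B) :
    CH (cond R (fun v => v ∈ E) True) (fun v => Y (w v)) (fun v => Z (w v)) ≤ B := by
  classical
  have hRE : law R (fun ω => ω ∈ E) True = Pr R E := rfl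
  set q : Ω → ℝ := cond R (fun ω => ω ∈ E) True with hq
  have hqL : IsLaw q := ⟨fun v => cond_nonneg hR.nonneg _ _ v, sum_cond R _ (by
    rw [hRE]; exact hE.ne')⟩
  have hqR : ∀ v, 0 < q v → 0 < R v ∧ v ∈ E := fun v hv => by
    obtain ⟨a, b⟩ := (cond_pos_iff hR.nonneg _ _ v).1 hv
    exact ⟨a, by simpa using b⟩
  set μ : Om → ℝ := law q w with hμ
  have h3 : CH q (fun v => Y (w v)) (fun v => Z (w v)) = CH μ Y Z := RS.CH_push (fun ω => rfl) Y Z
  have hμL : IsLaw μ := by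
    refine ⟨fun ω => law_nonneg hqL.nonneg _ _, ?_⟩
    rw [← hqL.sum_one]
    have h4 : ∑ ω, μ ω = ∑ ω ∈ univ.image w, law q w ω := by
      symm
      refine Finset.sum_subset (Finset.subset_univ _) fun ω _ hω => ?_
      exact law_eq_zero_of_notMem q w hω
    rw [h4, sum_law]
  have hP0 : ∀ ω, 0 ≤ P ω := fun ω => by rw [← hRP]; exact law_nonneg hR.nonneg _ _
  have hpos : ∀ ω, 0 < μ ω → ∃ v, 0 < q v ∧ w v = ω := by
    intro ω hω
    by_contra hcon
    push Not at hcon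
    have : μ ω = 0 := by
      rw [hμ]
      unfold law
      refine Finset.sum_eq_zero fun v _ => ?_
      split_ifs with h
      · rcases (hqL.nonneg v).eq_or_lt with h6 | h6
        · exact h6.symm
        · exact absurd h (hcon v h6)
      · rfl
    linarith
  have hμP : ∀ ω, 0 < μ ω → 0 < P ω := by
    intro ω hω
    obtain ⟨v, hv, rfl⟩ := hpos ω hω
    rw [← hRP]
    exact law_pos hR.nonneg w (hqR v hv).1
  rw [h3]
  refine (Pool.K2S.Sel.CH_le_ifo hP0 hμL hμP Y Z).trans ?_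
  calc ∑ ω, μ ω * Pool.K2S.Sel.ifo P Y Z ω ≤ ∑ ω, μ ω * B := by
        refine Finset.sum_le_sum fun ω _ => ?_
        rcases (hμL.nonneg ω).eq_or_lt with h0 | h0
        · rw [← h0, zero_mul, zero_mul]
        · obtain ⟨v, hv, rfl⟩ := hpos ω h0
          exact mul_le_mul_of_nonneg_left (hED v (hqR v hv).2) h0.le
    _ = B := by rw [← Finset.sum_mul, hμL.sum_one, one_mul]

end

/-- **The nonfull rows on an event over the samples with small information.** -/
theorem nfv_event (c : ℕ) (hc : 0 < c) (c₀ π₁ D : ℝ) (hc₀ : 0 < c₀) (hπ : 0 < π₁) (hD : 0 ≤ D)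
    (K : ℕ) (hK : 16 * (D + Real.log 2) ≤ c₀ * (K * Real.log 2)) :
    ∃ h₀ : ℕ, K ≤ h₀ ∧ ∀ h : ℕ, h₀ ≤ h → ∀ k : ℕ, 32 * c * (k : ℝ) ≤ c₀ * h →
      ∀ (Ω Om θ θ' : Type) [Fintype Ω] [Fintype Om] (R : Ω → ℝ) (w : Ω → Om) (P : Om → ℝ)
        (N : Om → Fin c → ℤ) (T : Om → θ') (τ : Ω → θ) (M : θ → Fin c → Fin c → ℝ) (X a : ℕ)
        (E : Set Ω), IsLaw R → (∀ ω, law R w ω = P ω) → Det R τ (fun v => T (w v)) →
      (∀ v, 0 < R v → ZOK k (M (τ v))) → π₁ ≤ Pr R E →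
      (∀ v ∈ E, w v ∈ Dfn P (rc N a) (fun ω => (rc N (a + h) ω, T ω))
        ((c - c₀) * (h * Real.log 2))) →
      c₀ / (16 * c) * Pr R E * h ≤ ∑ j ∈ range (h - K), ∑ v,
        (open Classical in if v ∈ E then R v else 0) *
          wtz R (fun v => nz (M (τ v)) (N (w v))) τ X (a + j) K D v := by
  classical
  have hl2 : 0 < Real.log 2 := Real.log_pos (by norm_num)
  have hcr : (0 : ℝ) < c := by exact_mod_cast hc
  obtain ⟨h₀, hKh, hfull⟩ := full_event c hc (c₀ / (2 * c)) π₁ D (by positivity) hπ hD K (by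
    have : c₀ / (2 * c) * (K * (c * Real.log 2)) = c₀ * (K * Real.log 2) / 2 := by
      field_simp
    rw [this]
    linarith)
  refine ⟨max h₀ 1, hKh.trans (le_max_left _ _), ?_⟩
  intro h hh k hk Ω Om θ θ' _ _ R w P N T τ M X a E hR hRP hτ hM hE hED
  have hh0 : h₀ ≤ h := (le_max_left _ _).trans hh
  have hh1 : (1 : ℝ) ≤ h := by exact_mod_cast (le_max_right h₀ 1).trans hh
  by_contra hcon
  rw [not_le] at hcon
  have h1 := hfull h hh0 k (by
    rw [div_mul_eq_mul_div, le_div_iff₀ (by positivity)]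
    linarith) Ω θ R (fun v => N (w v)) τ M X a E hR hM hE (by
    have e1 : c₀ / (2 * c) / 8 = c₀ / (16 * c) := by
      field_simp
      ring
    rw [e1]
    exact hcon.le)
  have hE0 : 0 < Pr R E := lt_of_lt_of_le hπ hE
  have hRE : law R (fun ω => ω ∈ E) True = Pr R E := rfl
  have hqL : IsLaw (cond R (fun ω => ω ∈ E) True) :=
    ⟨fun v => cond_nonneg hR.nonneg _ _ v, sum_cond R _ (by rw [hRE]; exact hE0.ne')⟩
  have h2 := CH_event_Dfn hR hRP (rc N a) (fun ω => (rc N (a + h) ω, T ω)) E hE0 hED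
  have h3 : CH (cond R (fun v => v ∈ E) True) (rc (fun v => N (w v)) a)
      (fun v => (rc (fun v => N (w v)) (a + h) v, τ v)) ≤
      CH (cond R (fun v => v ∈ E) True) (rc (fun v => N (w v)) a)
        (fun v => (rc (fun v => N (w v)) (a + h) v, T (w v))) := by
    refine CH_mono_cond hqL.nonneg ?_
    intro v v' hv hv' h3
    simp only [Prod.mk.injEq] at h3 ⊢
    exact ⟨h3.1, hτ v v' ((cond_pos_iff hR.nonneg _ _ v).1 hv).1
      ((cond_pos_iff hR.nonneg _ _ v').1 hv').1 h3.2⟩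
  have h4 : (1 - c₀ / (2 * c)) * (c * (h * Real.log 2)) ≤ (c - c₀) * (h * Real.log 2) :=
    h1.trans (h3.trans h2)
  have h5 : (1 - c₀ / (2 * c)) * (c * (h * Real.log 2)) = (c - c₀ / 2) * (h * Real.log 2) := by
    field_simp
  rw [h5] at h4
  have h6 : 0 < c₀ * (h * Real.log 2) := by positivity
  linarith

end Pool.OCM
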